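import Mathlib

/-!
Definitions for problem MP_9ce8c8_lc: division-free straight-line programs, approximative
complexity, and the classes `VP`, `VNP` and approximative `VP` over a field `k`.
-/

namespace Pool.Agent.H53.AC

open MvPolynomial

/-- `Avail k S l a`: the element `a` of the `k`-algebra `A` is available when the inputs are the
elements of `S` and the results computed so far are those in the list `l`: it is an input, a
constant from `k`, or one of the results in `l`. -/
def Avail (k : Type*) {A : Type*} [CommRing k] [CommRing A] [Algebra k A]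
    (S : Set A) (l : List A) (a : A) : Prop :=
  a ∈ S ∨ (∃ c : k, a = algebraMap k A c) ∨ a ∈ l

/-- `IsSLP k S l`: the list `l` (latest result first) is the list of results of the operations of
a division-free straight-line program over `k` with inputs `S`: each result is the sum,
difference or product of two elements available before. -/
inductive IsSLP (k : Type*) {A : Type*} [CommRing k] [CommRing A] [Algebra k A]
    (S : Set A) : List A → Prop
  | nil : IsSLP k S []
  | cons {l : List A} {a b g : A} : IsSLP k S l → Avail k S l a → Avail k S l b →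
      (g = a + b ∨ g = a - b ∨ g = a * b) → IsSLP k S (g :: l)

/-- `ComputedBy k S r f`: some division-free straight-line program over `k` with inputs `S` and at
most `r` additions, subtractions and multiplications computes `f`. -/
def ComputedBy (k : Type*) {A : Type*} [CommRing k] [CommRing A] [Algebra k A]
    (S : Set A) (r : ℕ) (f : A) : Prop :=
  ∃ l : List A, IsSLP k S l ∧ l.length ≤ r ∧ Avail k S l f

/-- `L(f) ≤ r` for a polynomial `f` over `k`: the inputs are the variables. -/
def ComplexityLE {k : Type*} [Field k] {σ : Type*} (f : MvPolynomial σ k) (r : ℕ) : Prop :=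
  ComputedBy k (Set.range (X : σ → MvPolynomial σ k)) r f

/-- The rational function `c ∈ k(ε)` is defined at `ε = 0` and takes the value `a` there. -/
def SpecializesTo {k : Type*} [Field k] (c : RatFunc k) (a : k) : Prop :=
  ∃ P Q : Polynomial k, Q.eval 0 ≠ 0 ∧
    c = algebraMap (Polynomial k) (RatFunc k) P / algebraMap (Polynomial k) (RatFunc k) Q ∧
    a = P.eval 0 / Q.eval 0

/-- The approximative complexity of `f` is at most `r`: there is a polynomial `F` over `k(ε)`, all
of whose coefficients are defined at `ε = 0`, with `F_{ε=0} = f` and `L(F) ≤ r` over `k(ε)`. -/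
def BorderComplexityLE {k : Type*} [Field k] {σ : Type*} (f : MvPolynomial σ k) (r : ℕ) : Prop :=
  ∃ F : MvPolynomial σ (RatFunc k),
    (∀ m, SpecializesTo (coeff m F) (coeff m f)) ∧ ComplexityLE F r

/-- `t(n)` is bounded by a polynomial in `n`. -/
def PBounded (t : ℕ → ℕ) : Prop := ∃ p : Polynomial ℕ, ∀ n, t n ≤ p.eval n

/-- A p-family: a sequence of polynomials `f n` in finite sets of variables `σ n`, whose number of
variables and degree are polynomially bounded. -/
def IsPFamily {k : Type*} [Field k] {σ : ℕ → Type} [∀ n, Fintype (σ n)]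
    (f : ∀ n, MvPolynomial (σ n) k) : Prop :=
  PBounded (fun n => Fintype.card (σ n)) ∧ PBounded (fun n => (f n).totalDegree)

/-- The class `VP` over `k`. -/
def InVP {k : Type*} [Field k] {σ : ℕ → Type} [∀ n, Fintype (σ n)]
    (f : ∀ n, MvPolynomial (σ n) k) : Prop :=
  IsPFamily f ∧ ∃ r : ℕ → ℕ, PBounded r ∧ ∀ n, ComplexityLE (f n) (r n)

/-- The class of approximatively p-computable families over `k`. -/
def InBorderVP {k : Type*} [Field k] {σ : ℕ → Type} [∀ n, Fintype (σ n)]
    (f : ∀ n, MvPolynomial (σ n) k) : Prop :=
  IsPFamily f ∧ ∃ r : ℕ → ℕ, PBounded r ∧ ∀ n, BorderComplexityLE (f n) (r n)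

/-- Substitute the bits `e` for the second block of variables. -/
noncomputable def substBits {k : Type*} [Field k] {σ : Type} {u : ℕ}
    (g : MvPolynomial (σ ⊕ Fin u) k) (e : Fin u → Bool) : MvPolynomial σ k :=
  aeval (Sum.elim X (fun i => if e i then 1 else 0)) g

/-- The class `VNP` over `k`: p-families `f_n(X) = ∑_{e ∈ {0,1}^{u(n)}} g_n(X, e)` with `g` in `VP`
and `u` polynomially bounded. -/
def InVNP {k : Type*} [Field k] {σ : ℕ → Type} [∀ n, Fintype (σ n)]
    (f : ∀ n, MvPolynomial (σ n) k) : Prop :=
  IsPFamily f ∧ ∃ u : ℕ → ℕ, PBounded u ∧ ∃ g : ∀ n, MvPolynomial (σ n ⊕ Fin (u n)) k,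
    InVP g ∧ ∀ n, f n = ∑ e : Fin (u n) → Bool, substBits (g n) e

/-- `VNP ⊆ approximative VP` over the field `k`. -/
def VNPSubsetBorderVP (k : Type*) [Field k] : Prop :=
  ∀ (σ : ℕ → Type) [∀ n, Fintype (σ n)] (f : ∀ n, MvPolynomial (σ n) k), InVNP f → InBorderVP f

end Pool.Agent.H53.AC
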