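import Pool.Agent.H53.AC.Upward

/-! If `k` is algebraically closed and `VNP ⊆ approximative VP` over some extension field `K` of
`k`, then the same over `k`. -/

namespace Pool.Agent.H53.AC

open MvPolynomial

/-- a straight-line program uses finitely many constants -/
theorem exists_constants {K A : Type*} [CommRing K] [CommRing A] [Algebra K A] [Algebra ℤ A]
    {S : Set A}
    {l : List A} (hl : IsSLP K S l) :
    ∃ T : Finset K, IsSLP ℤ (S ∪ algebraMap K A '' (T : Set K)) l := by
  classical
  have key : ∀ {l : List A} {a : A}, Avail K S l a →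
      ∃ T : Finset K, Avail ℤ (S ∪ algebraMap K A '' (T : Set K)) l a := by
    intro l a ha
    rcases ha with ha | ⟨c, rfl⟩ | ha
    · exact ⟨∅, Or.inl (Or.inl ha)⟩
    · exact ⟨{c}, Or.inl (Or.inr ⟨c, by simp, rfl⟩)⟩
    · exact ⟨∅, Or.inr (Or.inr ha)⟩
  induction hl with
  | nil => exact ⟨∅, IsSLP.nil⟩
  | @cons l a b g _ ha hb hg ih =>
    obtain ⟨T, hT⟩ := ih
    obtain ⟨Ta, hTa⟩ := key ha
    obtain ⟨Tb, hTb⟩ := key hb
    have mono : ∀ {T T' : Finset K}, (T : Set K) ⊆ T' →
        S ∪ algebraMap K A '' (T : Set K) ⊆ S ∪ algebraMap K A '' (T' : Set K) := by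
      intro T T' h
      exact Set.union_subset_union_right _ (Set.image_mono h)
    refine ⟨T ∪ Ta ∪ Tb, IsSLP.cons (hT.mono_inputs (mono ?_)) (hTa.mono_inputs (mono ?_))
      (hTb.mono_inputs (mono ?_)) hg⟩
    · intro x hx
      simp only [Finset.coe_union, Set.mem_union]
      exact Or.inl (Or.inl hx)
    · intro x hx
      simp only [Finset.coe_union, Set.mem_union]
      exact Or.inl (Or.inr hx)
    · intro x hx
      simp only [Finset.coe_union, Set.mem_union]
      exact Or.inr hx

theorem exists_constants' {K A : Type*} [CommRing K] [CommRing A] [Algebra K A] [Algebra ℤ A]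
    {S : Set A}
    {r : ℕ} {f : A} (h : ComputedBy K S r f) :
    ∃ T : Finset K, ComputedBy ℤ (S ∪ algebraMap K A '' (T : Set K)) r f := by
  classical
  obtain ⟨l, hl, hr, hf⟩ := h
  obtain ⟨T, hT⟩ := exists_constants hl
  have mono : ∀ {T T' : Finset K}, (T : Set K) ⊆ T' →
      S ∪ algebraMap K A '' (T : Set K) ⊆ S ∪ algebraMap K A '' (T' : Set K) := by
    intro T T' h
    exact Set.union_subset_union_right _ (Set.image_mono h)
  rcases hf with ha | ⟨c, rfl⟩ | ha
  · exact ⟨T, l, hT, hr, Or.inl (Or.inl ha)⟩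
  · refine ⟨T ∪ {c}, l, hT.mono_inputs (mono ?_), hr, Or.inl (Or.inr ⟨c, by simp, rfl⟩)⟩
    intro x hx
    simp only [Finset.coe_union, Set.mem_union]
    exact Or.inl hx
  · exact ⟨T, l, hT, hr, Or.inr (Or.inr ha)⟩

/-- lifting a straight-line program along a ring homomorphism whose image contains the inputs -/
theorem IsSLP.lift {A B : Type*} [CommRing A] [CommRing B] [Algebra ℤ A] [Algebra ℤ B] (φ : B →+* A) {S : Set A} {S' : Set B}
    (hS : ∀ s ∈ S, ∃ s' ∈ S', φ s' = s) {l : List A} (hl : IsSLP ℤ S l) :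
    ∃ l' : List B, IsSLP ℤ S' l' ∧ l'.map φ = l := by
  have key : ∀ {l : List A} {l' : List B} {a : A}, l'.map φ = l → Avail ℤ S l a →
      ∃ a' : B, φ a' = a ∧ Avail ℤ S' l' a' := by
    intro l l' a hl ha
    rcases ha with ha | ⟨c, rfl⟩ | ha
    · obtain ⟨s', hs', h⟩ := hS a ha
      exact ⟨s', h, Or.inl hs'⟩
    · exact ⟨algebraMap ℤ B c, by rw [eq_intCast, map_intCast, eq_intCast], Or.inr (Or.inl ⟨c, rfl⟩)⟩
    · rw [← hl, List.mem_map] at ha
      obtain ⟨a', ha', h⟩ := ha
      exact ⟨a', h, Or.inr (Or.inr ha')⟩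
  induction hl with
  | nil => exact ⟨[], IsSLP.nil, rfl⟩
  | @cons l a b g _ ha hb hg ih =>
    obtain ⟨l', hl', hmap⟩ := ih
    obtain ⟨a', rfl, ha'⟩ := key hmap ha
    obtain ⟨b', rfl, hb'⟩ := key hmap hb
    rcases hg with rfl | rfl | rfl
    · exact ⟨_, hl'.add ha' hb', by rw [List.map_cons, hmap, map_add]⟩
    · exact ⟨_, hl'.sub ha' hb', by rw [List.map_cons, hmap, map_sub]⟩
    · exact ⟨_, hl'.mul ha' hb', by rw [List.map_cons, hmap, map_mul]⟩

theorem ComputedBy.lift {A B : Type*} [CommRing A] [CommRing B] [Algebra ℤ A] [Algebra ℤ B]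
    (φ : B →+* A) {S : Set A} {S' : Set B} (hS : ∀ s ∈ S, ∃ s' ∈ S', φ s' = s) {r : ℕ} {f : A} (h : ComputedBy ℤ S r f) :
    ∃ f' : B, ComputedBy ℤ S' r f' ∧ φ f' = f := by
  obtain ⟨l, hl, hr, hf⟩ := h
  obtain ⟨l', hl', hmap⟩ := hl.lift φ hS
  have hlen : l'.length ≤ r := by
    rw [← hmap, List.length_map] at hr
    exact hr
  rcases hf with ha | ⟨c, rfl⟩ | ha
  · obtain ⟨s', hs', h⟩ := hS f ha
    exact ⟨s', ⟨l', hl', hlen, Or.inl hs'⟩, h⟩
  · exact ⟨algebraMap ℤ B c, ⟨l', hl', hlen, Or.inr (Or.inl ⟨c, rfl⟩)⟩,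
      by rw [eq_intCast, map_intCast, eq_intCast]⟩
  · rw [← hmap, List.mem_map] at ha
    obtain ⟨a', ha', h⟩ := ha
    exact ⟨a', ⟨l', hl', hlen, Or.inr (Or.inr ha')⟩, h⟩

/-- a finitely generated nontrivial algebra over an algebraically closed field has a point -/
theorem exists_algHom (k S : Type*) [Field k] [IsAlgClosed k] [CommRing S] [Nontrivial S]
    [Algebra k S] [Algebra.FiniteType k S] : Nonempty (S →ₐ[k] k) := by
  obtain ⟨m, hm⟩ := Ideal.exists_maximal S
  let _ := Ideal.Quotient.field m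
  have h1 : Algebra.FiniteType k (S ⧸ m) :=
    Algebra.FiniteType.of_surjective (Ideal.Quotient.mkₐ k m) (Ideal.Quotient.mkₐ_surjective k m)
  have h2 : Module.Finite k (S ⧸ m) := finite_of_finite_type_of_isJacobsonRing k (S ⧸ m)
  have h3 : Function.Bijective (Algebra.ofId k (S ⧸ m)) :=
    IsAlgClosed.algebraMap_bijective_of_isIntegral
  exact ⟨((AlgEquiv.ofBijective (Algebra.ofId k (S ⧸ m)) h3).symm : (S ⧸ m) →ₐ[k] k).comp
    (Ideal.Quotient.mkₐ k m)⟩

section Descend

variable {k K : Type*} [Field k] [Field K]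

/-- The abstract form of the descent: `A` is a ring of rational functions mapping both to `K(ε)`
and to `k(ε)`. -/
theorem border_descend_aux {σ : Type*} {S A : Type*} [CommRing S] [CommRing A]
    (i : S →+* K) (ψ : S →+* k) (s : Polynomial S →+* A) (α : A →+* RatFunc K)
    (β : A →+* RatFunc k) (hα : Function.Injective α)
    (hαs : ∀ p, α (s p) = algebraMap _ _ (p.map i)) (hβs : ∀ p, β (s p) = algebraMap _ _ (p.map ψ))
    {f : MvPolynomial σ k} {fS : MvPolynomial σ S} (hfS : map ψ fS = f)
    {F : MvPolynomial σ (RatFunc K)} {r : ℕ}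
    (P : MvPolynomial σ (Polynomial S)) (Q : Polynomial S) (hQ : ψ (Q.eval 0) ≠ 0)
    (h1 : map (algebraMap (Polynomial K) (RatFunc K)) (map (Polynomial.mapRingHom i) P) =
      C (algebraMap (Polynomial K) (RatFunc K) (Q.map i)) * F)
    (h2 : map (Polynomial.evalRingHom 0) P = C (Q.eval 0) * fS)
    (T : Finset (RatFunc K)) (hT : ∀ c ∈ T, ∃ a, α a = c)
    (hF : ComputedBy ℤ (Set.range (X : σ → MvPolynomial σ (RatFunc K)) ∪
      algebraMap (RatFunc K) (MvPolynomial σ (RatFunc K)) '' (T : Set (RatFunc K))) r F) :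
    BorderComplexityLE f r := by
  -- lift the computation to `A`
  have hin : ∀ x ∈ Set.range (X : σ → MvPolynomial σ (RatFunc K)) ∪
      algebraMap (RatFunc K) (MvPolynomial σ (RatFunc K)) '' (T : Set (RatFunc K)),
      ∃ y ∈ Set.range (X : σ → MvPolynomial σ A) ∪ Set.range (C : A →+* MvPolynomial σ A),
        map α y = x := by
    rintro _ (⟨x, rfl⟩ | ⟨c, hc, rfl⟩)
    · exact ⟨X x, Or.inl ⟨x, rfl⟩, by simp⟩
    · obtain ⟨a, rfl⟩ := hT c hc
      exact ⟨C a, Or.inr ⟨a, rfl⟩, by rw [map_C]; rfl⟩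
  obtain ⟨F', hF', hFF⟩ := ComputedBy.lift (map α) hin hF
  have hid : map s P = C (s Q) * F' := by
    apply map_injective α hα
    rw [map_mul, map_C, hFF, hαs, ← h1, map_map, map_map]
    congr 2
    exact RingHom.ext fun p => by simp [hαs]
  refine ⟨map β F', ?_, ?_⟩
  · rw [spec_iff]
    refine ⟨map (Polynomial.mapRingHom ψ) P, Q.map ψ, ?_, ?_, ?_⟩
    · rw [Polynomial.eval_map, Polynomial.eval₂_at_zero, Polynomial.coeff_zero_eq_eval_zero]
      exact hQ
    · have := congrArg (map β) hid
      rw [map_mul, map_C, hβs, map_map] at this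
      rw [← this, map_map]
      congr 2
      exact RingHom.ext fun p => by simp [hβs]
    · have := congrArg (map ψ) h2
      rw [map_mul, map_C, hfS, map_map] at this
      rw [Polynomial.eval_map, Polynomial.eval₂_at_zero, Polynomial.coeff_zero_eq_eval_zero,
        ← this, map_map]
      congr 2
      exact RingHom.ext fun p => by
        simp [Polynomial.eval_map, Polynomial.eval₂_at_zero, Polynomial.coeff_zero_eq_eval_zero]
  · refine ComputedBy.map (map β) ?_ ?_ hF'
    · rintro _ (⟨x, rfl⟩ | ⟨c, rfl⟩)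
      · exact Or.inl ⟨x, by simp⟩
      · exact Or.inr (Or.inl ⟨β c, by rw [map_C]; rfl⟩)
    · intro c
      refine Or.inr (Or.inl ⟨(c : RatFunc k), ?_⟩)
      simp

universe w

/-- the local ring of rational functions which can be mapped along `ψ` -/
theorem exists_local {S : Type w} [CommRing S] (i : S →+* K) (hi : Function.Injective i)
    (ψ : S →+* k) : ∃ (A : Type w) (_ : CommRing A) (s : Polynomial S →+* A)
      (α : A →+* RatFunc K) (β : A →+* RatFunc k), Function.Injective α ∧
      (∀ p, α (s p) = algebraMap _ _ (p.map i)) ∧ (∀ p, β (s p) = algebraMap _ _ (p.map ψ)) ∧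
      ∀ n d : Polynomial S, d.map ψ ≠ 0 →
        ∃ a, α a * algebraMap (Polynomial K) (RatFunc K) (d.map i) = algebraMap _ _ (n.map i) := by
  let M : Submonoid (Polynomial S) :=
    (nonZeroDivisors (Polynomial k)).comap (Polynomial.mapRingHom ψ)
  have hM : ∀ y : M, (y : Polynomial S).map ψ ≠ 0 := fun y => nonZeroDivisors.ne_zero y.2
  let gα : Polynomial S →+* RatFunc K :=
    (algebraMap (Polynomial K) (RatFunc K)).comp (Polynomial.mapRingHom i)
  let gβ : Polynomial S →+* RatFunc k :=
    (algebraMap (Polynomial k) (RatFunc k)).comp (Polynomial.mapRingHom ψ)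
  have hgα : Function.Injective gα := by
    intro x y hxy
    apply Polynomial.map_injective i hi
    exact FaithfulSMul.algebraMap_injective (Polynomial K) (RatFunc K) hxy
  have hα : ∀ y : M, IsUnit (gα y) := by
    intro y
    rw [isUnit_iff_ne_zero, Ne, map_eq_zero_iff gα hgα]
    intro h0
    apply hM y
    rw [h0, Polynomial.map_zero]
  have hβ : ∀ y : M, IsUnit (gβ y) := by
    intro y
    rw [isUnit_iff_ne_zero]
    simp only [gβ, RingHom.comp_apply, Polynomial.coe_mapRingHom, Ne,
      FaithfulSMul.algebraMap_eq_zero_iff]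
    exact hM y
  refine ⟨Localization M, inferInstance, algebraMap _ _,
    IsLocalization.lift (M := M) (S := Localization M) hα,
    IsLocalization.lift (M := M) (S := Localization M) hβ, ?_, fun p => ?_, fun p => ?_, ?_⟩
  · rw [injective_iff_map_eq_zero]
    intro a ha
    obtain ⟨x, y, rfl⟩ := IsLocalization.exists_mk'_eq M a
    rw [IsLocalization.lift_mk'] at ha
    have h0 : gα x = 0 := by
      rcases mul_eq_zero.1 ha with h | h
      · exact h
      · exact absurd h (Units.ne_zero _)
    rw [map_eq_zero_iff gα hgα] at h0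
    rw [h0, IsLocalization.mk'_zero]
  · exact IsLocalization.lift_eq hα p
  · exact IsLocalization.lift_eq hβ p
  · intro n d hd
    have hdM : d ∈ M := by
      change d.map ψ ∈ nonZeroDivisors (Polynomial k)
      exact mem_nonZeroDivisors_of_ne_zero hd
    refine ⟨IsLocalization.mk' (Localization M) n ⟨d, hdM⟩, ?_⟩
    have h1 : IsLocalization.lift (M := M) (S := Localization M) hα
        (IsLocalization.mk' (Localization M) n ⟨d, hdM⟩ * algebraMap _ _ d) = gα n := by
      have := IsLocalization.mk'_spec (Localization M) n (⟨d, hdM⟩ : M)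
      rw [this, IsLocalization.lift_eq]
    rw [map_mul, IsLocalization.lift_eq] at h1
    exact h1

/-- polynomials over an extension field come from a finitely generated subalgebra -/
theorem mem_lifts_adjoin [Algebra k K] {Z : Set K} {p : Polynomial K}
    (h : ∀ n, p.coeff n ≠ 0 → p.coeff n ∈ Z) :
    ∃ q : Polynomial (Algebra.adjoin k Z), q.map (algebraMap (Algebra.adjoin k Z) K) = p := by
  rw [← Polynomial.mem_lifts, Polynomial.lifts_iff_coeff_lifts]
  intro n
  by_cases h0 : p.coeff n = 0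
  · exact ⟨0, by rw [h0, map_zero]⟩
  · exact ⟨⟨p.coeff n, Algebra.subset_adjoin (h n h0)⟩, rfl⟩

theorem mem_lifts_adjoin' [Algebra k K] {σ : Type*} {Z : Set K} {P : MvPolynomial σ (Polynomial K)}
    (h : ∀ m n, (coeff m P).coeff n ≠ 0 → (coeff m P).coeff n ∈ Z) :
    ∃ q : MvPolynomial σ (Polynomial (Algebra.adjoin k Z)),
      map (Polynomial.mapRingHom (algebraMap (Algebra.adjoin k Z) K)) q = P := by
  have h1 : P ∈ Set.range (map (σ := σ)
      (Polynomial.mapRingHom (algebraMap (Algebra.adjoin k Z) K))) := by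
    rw [mem_range_map_iff_coeffs_subset]
    intro c hc
    rw [SetLike.mem_coe] at hc
    obtain ⟨m, -, rfl⟩ := mem_coeffs_iff.1 hc
    obtain ⟨q, hq⟩ := mem_lifts_adjoin (k := k) (h m)
    exact ⟨q, hq⟩
  exact h1

/-- Specialization: an approximative computation over an extension field `K` of `k` of
a polynomial over `k` can be replaced by one over `k'` if finitely generated `k`-subalgebras of `K`
have points over `k'`. -/
theorem border_specialize [Algebra k K] {σ : Type*} {f : MvPolynomial σ k} {r : ℕ}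
    (h : BorderComplexityLE (map (algebraMap k K) f) r) :
    ∃ Z : Finset K, ∀ (k' : Type*) [Field k'] [Algebra k k'],
      Nonempty (Algebra.adjoin k (Z : Set K) →ₐ[k] k') →
        BorderComplexityLE (map (algebraMap k k') f) r := by
  classical
  obtain ⟨F, hspec, hF⟩ := h
  rw [spec_iff] at hspec
  obtain ⟨P, Q, hQ, h1, h2⟩ := hspec
  obtain ⟨T, hT⟩ := exists_constants' hF
  -- the finitely many elements of `K` involved
  let Z : Finset K := P.support.biUnion (fun m => (coeff m P).coeffs) ∪ Q.coeffs ∪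
    {(Q.eval 0)⁻¹} ∪ T.biUnion (fun c => c.num.coeffs ∪ c.denom.coeffs)
  have hZP : ∀ m n, (coeff m P).coeff n ≠ 0 → (coeff m P).coeff n ∈ (Z : Set K) := by
    intro m n hn
    have hm : m ∈ P.support := by
      rw [mem_support_iff]
      rintro h0
      rw [h0] at hn
      simp at hn
    simp only [Z, Finset.coe_union, Set.mem_union, Finset.mem_coe, Finset.mem_biUnion]
    exact Or.inl (Or.inl (Or.inl ⟨m, hm, Polynomial.coeff_mem_coeffs hn⟩))
  have hZQ : ∀ n, Q.coeff n ≠ 0 → Q.coeff n ∈ (Z : Set K) := by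
    intro n hn
    simp only [Z, Finset.coe_union, Set.mem_union, Finset.mem_coe]
    exact Or.inl (Or.inl (Or.inr (Polynomial.coeff_mem_coeffs hn)))
  have hZQ0 : (Q.eval 0)⁻¹ ∈ (Z : Set K) := by
    simp only [Z, Finset.coe_union, Set.mem_union, Finset.mem_coe]
    exact Or.inl (Or.inr (by simp))
  have hZnum : ∀ c ∈ T, ∀ n, c.num.coeff n ≠ 0 → c.num.coeff n ∈ (Z : Set K) := by
    intro c hc n hn
    simp only [Z, Finset.coe_union, Set.mem_union, Finset.mem_coe, Finset.mem_biUnion]
    exact Or.inr ⟨c, hc, Finset.mem_union_left _ (Polynomial.coeff_mem_coeffs hn)⟩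
  have hZden : ∀ c ∈ T, ∀ n, c.denom.coeff n ≠ 0 → c.denom.coeff n ∈ (Z : Set K) := by
    intro c hc n hn
    simp only [Z, Finset.coe_union, Set.mem_union, Finset.mem_coe, Finset.mem_biUnion]
    exact Or.inr ⟨c, hc, Finset.mem_union_right _ (Polynomial.coeff_mem_coeffs hn)⟩
  refine ⟨Z, fun k' _ _ hpt => ?_⟩
  let S := Algebra.adjoin k (Z : Set K)
  obtain ⟨ψ⟩ := hpt
  obtain ⟨PS, hPS⟩ := mem_lifts_adjoin' (k := k) hZP
  obtain ⟨QS, hQS⟩ := mem_lifts_adjoin (k := k) hZQ
  have hi : Function.Injective (algebraMap S K) := FaithfulSMul.algebraMap_injective S K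
  have hiP : Function.Injective (Polynomial.map (algebraMap S K)) := Polynomial.map_injective _ hi
  obtain ⟨A, _, s, α, β, hαinj, hαs, hβs, hfrac⟩ := exists_local (algebraMap S K) hi (ψ : S →+* k')
  have hQS0 : algebraMap S K (QS.eval 0) = Q.eval 0 := by
    rw [← hQS, Polynomial.eval_map, Polynomial.eval₂_at_zero, Polynomial.coeff_zero_eq_eval_zero]
  refine border_descend_aux (algebraMap S K) (ψ : S →+* k') s α β hαinj hαs hβs
    (fS := map (algebraMap k S) f) ?_ PS QS ?_ ?_ ?_ T ?_ hT
  · rw [map_map]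
    congr 2
    ext a
    simp
  · have hu : QS.eval 0 * ⟨(Q.eval 0)⁻¹, Algebra.subset_adjoin hZQ0⟩ = 1 := by
      apply hi
      rw [map_mul, hQS0, map_one]
      exact mul_inv_cancel₀ hQ
    intro h0
    have := congrArg ψ hu
    rw [map_mul, map_one] at this
    have h0' : ψ (QS.eval 0) = 0 := h0
    rw [h0', zero_mul] at this
    exact zero_ne_one this
  · rw [hPS, hQS, h1]
  · apply map_injective (algebraMap S K) hi
    rw [map_mul, map_C, hQS0, map_map, map_map]
    have e1 : (algebraMap S K).comp (algebraMap k S) = algebraMap k K := rfl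
    rw [e1, ← h2, ← hPS, map_map]
    congr 2
    exact RingHom.ext fun p => by
      simp [Polynomial.eval_map, Polynomial.eval₂_at_zero, Polynomial.coeff_zero_eq_eval_zero]
  · intro c hc
    obtain ⟨n, hn⟩ := mem_lifts_adjoin (k := k) (hZnum c hc)
    obtain ⟨d, hd⟩ := mem_lifts_adjoin (k := k) (hZden c hc)
    have hdmon : d.Monic := by
      have := c.monic_denom
      rw [← hd] at this
      exact Polynomial.monic_of_injective hi this
    obtain ⟨x, hx⟩ := hfrac n d (hdmon.map _).ne_zero
    refine ⟨x, ?_⟩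
    rw [hn, hd] at hx
    have hd0 : algebraMap (Polynomial K) (RatFunc K) c.denom ≠ 0 := by
      rw [Ne, FaithfulSMul.algebraMap_eq_zero_iff]
      exact c.denom_ne_zero
    rw [eq_div_of_mul_eq hd0 hx, c.num_div_denom]

/-- If `k` is algebraically closed, an approximative computation over an extension field of `k` of
a polynomial over `k` can be replaced by one over `k`. -/
theorem border_descend [Algebra k K] [IsAlgClosed k] {σ : Type*} {f : MvPolynomial σ k} {r : ℕ}
    (h : BorderComplexityLE (map (algebraMap k K) f) r) : BorderComplexityLE f r := by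
  obtain ⟨Z, hZ⟩ := border_specialize h
  have hfin : Algebra.FiniteType k (Algebra.adjoin k (Z : Set K)) := by
    rw [← Subalgebra.fg_iff_finiteType]
    exact ⟨Z, rfl⟩
  have := hZ k (exists_algHom k _)
  rw [Algebra.algebraMap_self, map_id] at this
  exact this

end Descend

end Pool.Agent.H53.AC
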