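import Pool.Agent.H53.AC.Downward

/-! Restriction of scalars: if `[K : k]` is finite and `VNP ⊆ approximative VP` over `K`, then the
same over `k`. -/

namespace Pool.Agent.H53.AC

open MvPolynomial

section General

variable {k : Type*} {A : Type*} [CommRing k] [CommRing A] [Algebra k A] {S : Set A}

/-- extend a straight-line program to compute finitely many further elements -/
theorem IsSLP.extend_all {l : List A} (hl : IsSLP k S l) {κ : Type*} (s : Finset κ) (t : κ → A)
    (N : ℕ) (h : ∀ x ∈ s, ∀ l', IsSLP k S l' → (∀ y ∈ l, y ∈ l') →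
      ∃ l'', IsSLP k S l'' ∧ l''.length ≤ l'.length + N ∧ (∀ y ∈ l', y ∈ l'') ∧
        Avail k S l'' (t x)) :
    ∃ l', IsSLP k S l' ∧ l'.length ≤ l.length + s.card * N ∧ (∀ y ∈ l, y ∈ l') ∧
      ∀ x ∈ s, Avail k S l' (t x) := by
  classical
  induction s using Finset.induction_on with
  | empty => exact ⟨l, hl, by simp, fun y hy => hy, by simp⟩
  | @insert a s ha ih =>
    obtain ⟨l', hl', hlen, hsub, hav⟩ := ih fun x hx => h x (Finset.mem_insert_of_mem hx)
    obtain ⟨l'', hl'', hlen'', hsub'', hav''⟩ := h a (Finset.mem_insert_self a s) l' hl' hsub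
    refine ⟨l'', hl'', ?_, fun y hy => hsub'' y (hsub y hy), fun x hx => ?_⟩
    · rw [Finset.card_insert_of_notMem ha, add_mul, one_mul]
      omega
    · rw [Finset.mem_insert] at hx
      rcases hx with rfl | hx
      · exact hav''
      · exact (hav x hx).mono_list hsub''

theorem IsSLP.finset_sum_mul {l : List A} (hl : IsSLP k S l) {κ : Type*} (s : Finset κ)
    (a b : κ → A) (ha : ∀ x ∈ s, Avail k S l (a x)) (hb : ∀ x ∈ s, Avail k S l (b x)) :
    ∃ l', IsSLP k S l' ∧ l'.length ≤ l.length + 2 * s.card ∧ (∀ x ∈ l, x ∈ l') ∧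
      Avail k S l' (∑ x ∈ s, a x * b x) := by
  classical
  induction s using Finset.induction_on with
  | empty => exact ⟨l, hl, by simp, fun x hx => hx, by simpa using Avail.zero⟩
  | @insert c s hc ih =>
    obtain ⟨l', hl', hlen, hsub, hav⟩ := ih (fun x hx => ha x (Finset.mem_insert_of_mem hx))
      fun x hx => hb x (Finset.mem_insert_of_mem hx)
    have h1 := hl'.mul ((ha c (Finset.mem_insert_self c s)).mono_list hsub)
      ((hb c (Finset.mem_insert_self c s)).mono_list hsub)
    have h2 := h1.add Avail.head hav.cons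
    refine ⟨_, h2, ?_, ?_, ?_⟩
    · rw [Finset.card_insert_of_notMem hc]
      simp only [List.length_cons]
      omega
    · intro x hx
      exact List.mem_cons_of_mem _ (List.mem_cons_of_mem _ (hsub x hx))
    · rw [Finset.sum_insert hc]
      exact Avail.head

end General

section Basis

variable {k K : Type*} [Field k] [Field K] [Algebra k K]

theorem exists_basis_one (k K : Type*) [Field k] [Field K] [Algebra k K] [FiniteDimensional k K] :
    ∃ (ι : Type) (_ : Fintype ι) (b : Module.Basis ι k K) (i : ι), b i = 1 := by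
  classical
  have h1 : LinearIndepOn k id ({1} : Set K) := by
    rw [linearIndepOn_singleton_iff]
    exact one_ne_zero
  let b := Module.Basis.extend h1
  have hfin : Fintype (h1.extend (Set.subset_univ _)) :=
    FiniteDimensional.fintypeBasisIndex b
  have hmem : (1 : K) ∈ h1.extend (Set.subset_univ _) := h1.subset_extend _ rfl
  let e := Fintype.equivFin (h1.extend (Set.subset_univ _))
  refine ⟨Fin (Fintype.card (h1.extend (Set.subset_univ _))), inferInstance, b.reindex e,
    e ⟨1, hmem⟩, ?_⟩
  rw [Module.Basis.reindex_apply, Equiv.symm_apply_apply, Module.Basis.extend_apply_self]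

theorem ratMap_C (a : k) : ratMap k K (RatFunc.C a) = RatFunc.C (algebraMap k K a) := by
  have := ratMap_algebraMap (k := k) (K := K) (Polynomial.C a)
  rw [Polynomial.map_C] at this
  exact this

/-- every rational function over `K` is a combination of the basis elements over `k(ε)` -/
theorem decompose {ι : Type} [Fintype ι] (b : Module.Basis ι k K) (c : RatFunc K) :
    ∃ c' : ι → RatFunc k, c = ∑ i, RatFunc.C (b i) * ratMap k K (c' i) := by
  classical
  let _ : Algebra (RatFunc k) (RatFunc K) := (ratMap k K).toAlgebra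
  have hsmul : ∀ (x : RatFunc k) (y : RatFunc K), x • y = ratMap k K x * y := fun x y => rfl
  let W : Submodule (RatFunc k) (RatFunc K) :=
    Submodule.span (RatFunc k) (Set.range fun i => RatFunc.C (b i))
  have hb : ∀ i, RatFunc.C (b i) ∈ W := fun i => Submodule.subset_span ⟨i, rfl⟩
  have hC : ∀ a : K, RatFunc.C a ∈ W := by
    intro a
    rw [← b.sum_repr a, map_sum]
    refine Submodule.sum_mem _ fun i _ => ?_
    have : RatFunc.C (b.repr a i • b i) = (RatFunc.C (b.repr a i) : RatFunc k) •
        (RatFunc.C (b i) : RatFunc K) := by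
      rw [hsmul, ratMap_C, Algebra.smul_def, map_mul]
    rw [this]
    exact Submodule.smul_mem _ _ (hb i)
  have hmul : ∀ x ∈ W, ∀ y ∈ W, x * y ∈ W := by
    intro x hx y hy
    induction hx using Submodule.span_induction with
    | mem x hx =>
      obtain ⟨i, rfl⟩ := hx
      induction hy using Submodule.span_induction with
      | mem y hy =>
        obtain ⟨j, rfl⟩ := hy
        have : (RatFunc.C (b i) : RatFunc K) * RatFunc.C (b j) = RatFunc.C (b i * b j) :=
          (map_mul _ _ _).symm
        simp only [this]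
        exact hC _
      | zero => rw [mul_zero]; exact Submodule.zero_mem _
      | add y z _ _ ihy ihz => rw [mul_add]; exact Submodule.add_mem _ ihy ihz
      | smul a y _ ih => rw [mul_smul_comm]; exact Submodule.smul_mem _ _ ih
    | zero => rw [zero_mul]; exact Submodule.zero_mem _
    | add x z _ _ ihx ihz => rw [add_mul]; exact Submodule.add_mem _ ihx ihz
    | smul a x _ ih => rw [smul_mul_assoc]; exact Submodule.smul_mem _ _ ih
  have hpoly : ∀ P : Polynomial K, algebraMap (Polynomial K) (RatFunc K) P ∈ W := by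
    intro P
    induction P using Polynomial.induction_on' with
    | add p q hp hq => rw [map_add]; exact Submodule.add_mem _ hp hq
    | monomial n a =>
      have : algebraMap (Polynomial K) (RatFunc K) (Polynomial.monomial n a) =
          (algebraMap (Polynomial k) (RatFunc k) (Polynomial.X ^ n)) • RatFunc.C a := by
        rw [hsmul, ratMap_algebraMap, Polynomial.map_pow, Polynomial.map_X,
          ← Polynomial.C_mul_X_pow_eq_monomial, map_mul, mul_comm]
        rfl
      rw [this]
      exact Submodule.smul_mem _ _ (hC a)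
  have hfd : FiniteDimensional (RatFunc k) W :=
    FiniteDimensional.span_of_finite _ (Set.finite_range _)
  have hinv : ∀ Q ∈ W, Q ≠ 0 → Q⁻¹ ∈ W := by
    intro Q hQ hQ0
    let m : W →ₗ[RatFunc k] W :=
      { toFun := fun w => ⟨Q * w.1, hmul Q hQ w.1 w.2⟩
        map_add' := fun x y => Subtype.ext (mul_add Q x.1 y.1)
        map_smul' := fun a x => Subtype.ext (mul_smul_comm a Q x.1) }
    have hinj : Function.Injective m := by
      intro x y hxy
      have : Q * x.1 = Q * y.1 := congrArg Subtype.val hxy
      exact Subtype.ext (mul_left_cancel₀ hQ0 this)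
    have hsurj : Function.Surjective m := LinearMap.surjective_of_injective hinj
    have h1 : (1 : RatFunc K) ∈ W := by
      have := hC 1
      rw [map_one] at this
      exact this
    obtain ⟨y, hy⟩ := hsurj ⟨1, h1⟩
    have hy' : Q * y.1 = 1 := congrArg Subtype.val hy
    rw [← eq_inv_of_mul_eq_one_right hy']
    exact y.2
  have hall : c ∈ W := by
    rw [← c.num_div_denom, div_eq_mul_inv]
    refine hmul _ (hpoly _) _ (hinv _ (hpoly _) ?_)
    rw [Ne, FaithfulSMul.algebraMap_eq_zero_iff]
    exact c.denom_ne_zero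
  rw [Submodule.mem_span_range_iff_exists_fun] at hall
  obtain ⟨c', hc'⟩ := hall
  refine ⟨c', ?_⟩
  rw [← hc']
  exact Finset.sum_congr rfl fun i _ => by rw [hsmul, mul_comm]

/-- the components of a rational function defined at zero are defined at zero -/
theorem specializes_comp {ι : Type} [Fintype ι] (b : Module.Basis ι k K) {c : RatFunc K} {a : K}
    (h : SpecializesTo c a) {c' : ι → RatFunc k}
    (hc' : c = ∑ i, RatFunc.C (b i) * ratMap k K (c' i)) :
    ∀ i, SpecializesTo (c' i) (b.repr a i) := by
  classical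
  -- common denominator
  let D : Polynomial k := ∏ i, (c' i).denom
  have hD : D ≠ 0 := Finset.prod_ne_zero_iff.2 fun i _ => (c' i).denom_ne_zero
  let N : ι → Polynomial k := fun i => (c' i).num * ∏ j ∈ Finset.univ.erase i, (c' j).denom
  have hDm : ∀ {x : Polynomial k}, x ≠ 0 → algebraMap (Polynomial k) (RatFunc k) x ≠ 0 := by
    intro x hx
    rw [Ne, FaithfulSMul.algebraMap_eq_zero_iff]
    exact hx
  have hDm' : ∀ {x : Polynomial K}, x ≠ 0 → algebraMap (Polynomial K) (RatFunc K) x ≠ 0 := by
    intro x hx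
    rw [Ne, FaithfulSMul.algebraMap_eq_zero_iff]
    exact hx
  have hcN : ∀ i, c' i * algebraMap (Polynomial k) (RatFunc k) D =
      algebraMap (Polynomial k) (RatFunc k) (N i) := by
    intro i
    simp only [D, N]
    rw [← Finset.mul_prod_erase _ _ (Finset.mem_univ i), map_mul, map_mul]
    conv_lhs => rw [← (c' i).num_div_denom]
    rw [RatFunc.num_div_denom]
    have h1 := hDm (c' i).denom_ne_zero
    have h2 := (c' i).num_div_denom
    rw [div_eq_iff h1] at h2
    rw [h2]
    ring
  obtain ⟨D', hDD', hD'⟩ :=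
    Polynomial.exists_eq_pow_rootMultiplicity_mul_and_not_dvd D hD 0
  rw [Polynomial.C_0, sub_zero] at hDD' hD'
  set m := Polynomial.rootMultiplicity 0 D
  have hD'0 : D'.eval 0 ≠ 0 := by
    intro h0
    apply hD'
    rw [Polynomial.X_dvd_iff, Polynomial.coeff_zero_eq_eval_zero]
    exact h0
  obtain ⟨P, Q, hQ, hPQ, ha⟩ := h
  have hQ0 : Q ≠ 0 := by
    rintro rfl
    simp at hQ
  let G : Polynomial K := ∑ i, Polynomial.C (b i) * (N i).map (algebraMap k K)
  have hG : P * D.map (algebraMap k K) = Q * G := by
    apply FaithfulSMul.algebraMap_injective (Polynomial K) (RatFunc K)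
    rw [map_mul, map_mul]
    have h1 : algebraMap (Polynomial K) (RatFunc K) P =
        algebraMap (Polynomial K) (RatFunc K) Q * c := by
      rw [hPQ, mul_div_cancel₀ _ (hDm' hQ0)]
    rw [h1, mul_assoc]
    congr 1
    rw [hc', Finset.sum_mul, map_sum]
    refine Finset.sum_congr rfl fun i _ => ?_
    rw [map_mul, mul_assoc, ← ratMap_algebraMap, ← map_mul, hcN i, ratMap_algebraMap]
    rfl
  have hXG : (Polynomial.X : Polynomial K) ^ m ∣ G := by
    refine (Polynomial.prime_X).pow_dvd_of_dvd_mul_left m (a := Q) ?_ ?_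
    · rw [Polynomial.X_dvd_iff, Polynomial.coeff_zero_eq_eval_zero]
      exact hQ
    · rw [← hG, hDD', Polynomial.map_mul, Polynomial.map_pow, Polynomial.map_X]
      exact ⟨P * D'.map (algebraMap k K), by ring⟩
  have hcoef : ∀ j, G.coeff j = ∑ i, (N i).coeff j • b i := by
    intro j
    simp only [G, Polynomial.finsetSum_coeff, Polynomial.coeff_C_mul, Polynomial.coeff_map]
    exact Finset.sum_congr rfl fun i _ => by rw [Algebra.smul_def, mul_comm]
  have hXN : ∀ i, (Polynomial.X : Polynomial k) ^ m ∣ N i := by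
    intro i
    rw [Polynomial.X_pow_dvd_iff]
    intro j hj
    have h0 : G.coeff j = 0 := (Polynomial.X_pow_dvd_iff.1 hXG) j hj
    rw [hcoef] at h0
    exact Fintype.linearIndependent_iff.1 b.linearIndependent _ h0 i
  choose N' hN' using hXN
  have hXm : (Polynomial.X : Polynomial k) ^ m ≠ 0 := pow_ne_zero _ Polynomial.X_ne_zero
  have hXm' : (Polynomial.X : Polynomial K) ^ m ≠ 0 := pow_ne_zero _ Polynomial.X_ne_zero
  have hD'ne : D' ≠ 0 := by
    rintro rfl
    simp at hD'0
  have hcval : ∀ i, c' i = algebraMap (Polynomial k) (RatFunc k) (N' i) /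
      algebraMap (Polynomial k) (RatFunc k) D' := by
    intro i
    have := hcN i
    rw [hN' i, hDD', map_mul, map_mul] at this
    rw [eq_div_iff (hDm hD'ne)]
    have h1 := hDm hXm
    apply mul_left_cancel₀ h1
    rw [← this]
    ring
  have hG' : P * D'.map (algebraMap k K) =
      Q * ∑ i, Polynomial.C (b i) * (N' i).map (algebraMap k K) := by
    apply mul_left_cancel₀ hXm'
    have : G = Polynomial.X ^ m * ∑ i, Polynomial.C (b i) * (N' i).map (algebraMap k K) := by
      simp only [G]
      rw [Finset.mul_sum]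
      refine Finset.sum_congr rfl fun i _ => ?_
      rw [hN' i, Polynomial.map_mul, Polynomial.map_pow, Polynomial.map_X]
      ring
    rw [this, hDD', Polynomial.map_mul, Polynomial.map_pow, Polynomial.map_X] at hG
    rw [mul_left_comm, hG]
    ring
  have hval : a = ∑ i, ((N' i).eval 0 / D'.eval 0) • b i := by
    have h1 := congrArg (Polynomial.eval 0) hG'
    rw [Polynomial.eval_mul, Polynomial.eval_mul, Polynomial.eval_finsetSum] at h1
    have hev : ∀ p : Polynomial k, (p.map (algebraMap k K)).eval 0 =
        algebraMap k K (p.eval 0) := by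
      intro p
      rw [Polynomial.eval_map, Polynomial.eval₂_at_zero, Polynomial.coeff_zero_eq_eval_zero]
    rw [hev] at h1
    have h2 : algebraMap k K (D'.eval 0) ≠ 0 := by
      rw [Ne, map_eq_zero]
      exact hD'0
    rw [ha, div_eq_iff hQ, Finset.sum_mul]
    apply mul_right_cancel₀ h2
    rw [h1, Finset.mul_sum, Finset.sum_mul]
    refine Finset.sum_congr rfl fun i _ => ?_
    rw [Polynomial.eval_mul, Polynomial.eval_C, hev, Algebra.smul_def, map_div₀]
    field_simp
  intro i
  refine ⟨N' i, D', hD'0, hcval i, ?_⟩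
  rw [hval, map_sum, Finsupp.finsetSum_apply, Finset.sum_eq_single i]
  · rw [map_smul, Finsupp.smul_apply, b.repr_self, Finsupp.single_eq_same, smul_eq_mul, mul_one]
  · intro j _ hj
    rw [map_smul, Finsupp.smul_apply, b.repr_self, Finsupp.single_eq_of_ne (Ne.symm hj), smul_zero]
  · intro h
    exact absurd (Finset.mem_univ i) h

/-- the components of `g` over `k(ε)` have been computed -/
def HasRC {ι : Type} [Fintype ι] (b : Module.Basis ι k K) {σ : Type*}
    (l : List (MvPolynomial σ (RatFunc k))) (g : MvPolynomial σ (RatFunc K)) : Prop :=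
  ∃ G : ι → MvPolynomial σ (RatFunc k), (∀ i, Avail (RatFunc k) (Set.range X) l (G i)) ∧
    g = ∑ i, C (RatFunc.C (b i)) * map (ratMap k K) (G i)

theorem HasRC.mono {ι : Type} [Fintype ι] {b : Module.Basis ι k K} {σ : Type*}
    {l l' : List (MvPolynomial σ (RatFunc k))} (hl : ∀ x ∈ l, x ∈ l')
    {g : MvPolynomial σ (RatFunc K)} (h : HasRC b l g) : HasRC b l' g := by
  obtain ⟨G, hG, hg⟩ := h
  exact ⟨G, fun i => (hG i).mono_list hl, hg⟩

theorem hasRC_avail {ι : Type} [Fintype ι] {b : Module.Basis ι k K} {i0 : ι} (hb : b i0 = 1)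
    {σ : Type*} {l : List (MvPolynomial σ (RatFunc k))} {l0 : List (MvPolynomial σ (RatFunc K))}
    (h : ∀ g ∈ l0, HasRC b l g) {a : MvPolynomial σ (RatFunc K)}
    (ha : Avail (RatFunc K) (Set.range X) l0 a) : HasRC b l a := by
  classical
  rcases ha with ⟨x, rfl⟩ | ⟨c, rfl⟩ | ha
  · refine ⟨fun i => if i = i0 then X x else 0, fun i => ?_, ?_⟩
    · by_cases hi : i = i0
      · simp only [hi, if_true]
        exact Or.inl ⟨x, rfl⟩
      · simp only [hi, if_false]
        exact Avail.zero
    · rw [Finset.sum_eq_single i0]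
      · simp [hb]
      · intro j _ hj
        simp [hj]
      · intro hn
        exact absurd (Finset.mem_univ i0) hn
  · obtain ⟨c', hc'⟩ := decompose b c
    refine ⟨fun i => C (c' i), fun i => Or.inr (Or.inl ⟨c' i, rfl⟩), ?_⟩
    rw [algebraMap_eq, hc', map_sum]
    refine Finset.sum_congr rfl fun i _ => ?_
    rw [map_mul, map_C]
  · exact h a ha

/-- products of components -/
theorem hasRC_mul_eq {ι : Type} [Fintype ι] (b : Module.Basis ι k K)
    {σ : Type*} (Ga Gb : ι → MvPolynomial σ (RatFunc k)) :
    (∑ i, C (RatFunc.C (b i)) * map (ratMap k K) (Ga i)) *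
      (∑ i, C (RatFunc.C (b i)) * map (ratMap k K) (Gb i)) =
    ∑ l, C (RatFunc.C (b l)) * map (ratMap k K)
      (∑ p : ι × ι, C (RatFunc.C (b.repr (b p.1 * b p.2) l)) * (Ga p.1 * Gb p.2)) := by
  classical
  rw [Finset.sum_mul_sum, ← Finset.sum_product']
  simp only [map_sum, Finset.mul_sum]
  rw [Finset.sum_comm]
  refine Finset.sum_congr rfl fun p _ => ?_
  have h1 : (C (RatFunc.C (b p.1)) : MvPolynomial σ (RatFunc K)) * C (RatFunc.C (b p.2)) =
      ∑ l, C (RatFunc.C (b l)) * C (RatFunc.C (algebraMap k K (b.repr (b p.1 * b p.2) l))) := by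
    rw [← C_mul, ← map_mul RatFunc.C]
    conv_lhs => rw [← b.sum_repr (b p.1 * b p.2)]
    rw [map_sum, map_sum]
    refine Finset.sum_congr rfl fun l _ => ?_
    rw [Algebra.smul_def, map_mul, map_mul, mul_comm]
  calc C (RatFunc.C (b p.1)) * map (ratMap k K) (Ga p.1) *
        (C (RatFunc.C (b p.2)) * map (ratMap k K) (Gb p.2))
      = (C (RatFunc.C (b p.1)) * C (RatFunc.C (b p.2))) *
        (map (ratMap k K) (Ga p.1) * map (ratMap k K) (Gb p.2)) := by ring
    _ = _ := by
        rw [h1, Finset.sum_mul]
        refine Finset.sum_congr rfl fun l _ => ?_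
        rw [map_mul (map (ratMap k K)) (C _), map_mul (map (ratMap k K)) (Ga p.1), map_C,
          ratMap_C]
        ring

/-- restriction of scalars for straight-line programs -/
theorem restrict_slp {ι : Type} [Fintype ι] (b : Module.Basis ι k K) {i0 : ι} (hb : b i0 = 1)
    {σ : Type*} {l : List (MvPolynomial σ (RatFunc K))}
    (hl : IsSLP (RatFunc K) (Set.range X) l) :
    ∃ l' : List (MvPolynomial σ (RatFunc k)), IsSLP (RatFunc k) (Set.range X) l' ∧
      l'.length ≤ l.length * (Fintype.card (ι × ι) * 1 +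
        Fintype.card ι * (2 * Fintype.card (ι × ι))) ∧ ∀ g ∈ l, HasRC b l' g := by
  classical
  induction hl with
  | nil => exact ⟨[], IsSLP.nil, by simp, by simp⟩
  | @cons l a c g _ ha hc hg ih =>
    obtain ⟨l', hl', hlen, hcomp⟩ := ih
    obtain ⟨Ga, hGa, rfl⟩ := hasRC_avail hb hcomp ha
    obtain ⟨Gc, hGc, rfl⟩ := hasRC_avail hb hcomp hc
    have hι : Fintype.card ι * 1 ≤ Fintype.card (ι × ι) * 1 +
        Fintype.card ι * (2 * Fintype.card (ι × ι)) := by
      have h1 : 0 < Fintype.card ι := Fintype.card_pos_iff.2 ⟨i0⟩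
      rw [Fintype.card_prod]
      nlinarith
    have hnew : ∃ l'', IsSLP (RatFunc k) (Set.range X) l'' ∧
        l''.length ≤ l'.length + (Fintype.card (ι × ι) * 1 +
          Fintype.card ι * (2 * Fintype.card (ι × ι))) ∧ (∀ x ∈ l', x ∈ l'') ∧ HasRC b l'' g := by
      rcases hg with rfl | rfl | rfl
      · obtain ⟨l'', hl'', hlen'', hsub, hav⟩ := hl'.extend_all Finset.univ
          (fun i => Ga i + Gc i) 1 (fun i _ l1 hl1 hsub => ⟨_, hl1.add ((hGa i).mono_list hsub)
            ((hGc i).mono_list hsub), by simp, fun y hy => List.mem_cons_of_mem _ hy, Avail.head⟩)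
        rw [Finset.card_univ] at hlen''
        refine ⟨l'', hl'', by omega, hsub, _, fun i => hav i (Finset.mem_univ i), ?_⟩
        rw [← Finset.sum_add_distrib]
        exact Finset.sum_congr rfl fun i _ => by rw [map_add, mul_add]
      · obtain ⟨l'', hl'', hlen'', hsub, hav⟩ := hl'.extend_all Finset.univ
          (fun i => Ga i - Gc i) 1 (fun i _ l1 hl1 hsub => ⟨_, hl1.sub ((hGa i).mono_list hsub)
            ((hGc i).mono_list hsub), by simp, fun y hy => List.mem_cons_of_mem _ hy, Avail.head⟩)
        rw [Finset.card_univ] at hlen''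
        refine ⟨l'', hl'', by omega, hsub, _, fun i => hav i (Finset.mem_univ i), ?_⟩
        rw [← Finset.sum_sub_distrib]
        exact Finset.sum_congr rfl fun i _ => by rw [map_sub, mul_sub]
      · obtain ⟨l1, hl1, hlen1, hsub1, hav1⟩ := hl'.extend_all
          (Finset.univ : Finset (ι × ι)) (fun p => Ga p.1 * Gc p.2) 1
          (fun p _ l1 hl1 hsub => ⟨_, hl1.mul ((hGa p.1).mono_list hsub)
            ((hGc p.2).mono_list hsub), by simp, fun y hy => List.mem_cons_of_mem _ hy,
              Avail.head⟩)
        obtain ⟨l2, hl2, hlen2, hsub2, hav2⟩ := hl1.extend_all (Finset.univ : Finset ι)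
          (fun i => ∑ p : ι × ι, C (RatFunc.C (b.repr (b p.1 * b p.2) i)) * (Ga p.1 * Gc p.2))
          (2 * Fintype.card (ι × ι)) (fun i _ l3 hl3 hsub => by
            have := hl3.finset_sum_mul (Finset.univ : Finset (ι × ι))
              (fun p => C (RatFunc.C (b.repr (b p.1 * b p.2) i))) (fun p => Ga p.1 * Gc p.2)
              (fun p _ => Or.inr (Or.inl ⟨_, rfl⟩))
              (fun p hp => (hav1 p hp).mono_list hsub)
            rw [Finset.card_univ] at this
            exact this)
        rw [Finset.card_univ] at hlen1 hlen2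
        refine ⟨l2, hl2, by omega, fun x hx => hsub2 x (hsub1 x hx), _,
          fun i => hav2 i (Finset.mem_univ i), ?_⟩
        exact hasRC_mul_eq b Ga Gc
    obtain ⟨l'', hl'', hlen'', hsub, hg''⟩ := hnew
    refine ⟨l'', hl'', ?_, ?_⟩
    · rw [List.length_cons, add_mul, one_mul]
      omega
    · intro x hx
      rw [List.mem_cons] at hx
      rcases hx with rfl | hx
      · exact hg''
      · exact (hcomp x hx).mono hsub

/-- restriction of scalars for approximative complexity -/
theorem border_restrict {ι : Type} [Fintype ι] (b : Module.Basis ι k K) {i0 : ι} (hb : b i0 = 1)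
    {σ : Type*} {f : MvPolynomial σ k} {r : ℕ}
    (h : BorderComplexityLE (map (algebraMap k K) f) r) :
    BorderComplexityLE f (r * (Fintype.card (ι × ι) * 1 +
        Fintype.card ι * (2 * Fintype.card (ι × ι)))) := by
  obtain ⟨F, hspec, l, hl, hlen, hav⟩ := h
  obtain ⟨l', hl', hlen', hcomp⟩ := restrict_slp b hb hl
  obtain ⟨G, hG, hF⟩ := hasRC_avail hb hcomp hav
  refine ⟨G i0, fun m => ?_, l', hl', hlen'.trans (Nat.mul_le_mul_right _ hlen), hG i0⟩
  have hm : coeff m F = ∑ i, RatFunc.C (b i) * ratMap k K (coeff m (G i)) := by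
    rw [hF, coeff_sum]
    exact Finset.sum_congr rfl fun i _ => by rw [coeff_C_mul, coeff_map]
  have := specializes_comp b (hspec m) hm i0
  rw [coeff_map] at this
  have h1 : algebraMap k K (coeff m f) = coeff m f • b i0 := by
    rw [hb, Algebra.smul_def, mul_one]
  rw [h1, map_smul, Finsupp.smul_apply, b.repr_self, Finsupp.single_eq_same, smul_eq_mul,
    mul_one] at this
  exact this

end Basis

end Pool.Agent.H53.AC
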