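import Pool.Agent.H53.AC.SLP

/-! Generic constants: a straight-line program over a field `K` computing a polynomial of degree
`d` is a specialization of one over a smaller field `k`, with one variable per constant, whose
result has polynomially bounded degree in all variables. -/

namespace Pool.Agent.H53.AC

open MvPolynomial

theorem hc_mul {σ K : Type*} [CommRing K] (a b : MvPolynomial σ K) (j : ℕ) :
    homogeneousComponent j (a * b) =
      ∑ i ∈ Finset.range (j + 1), homogeneousComponent i a * homogeneousComponent (j - i) b := by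
  classical
  ext d
  rw [coeff_homogeneousComponent, coeff_sum]
  simp only [coeff_mul, coeff_homogeneousComponent]
  rw [Finset.sum_comm]
  split_ifs with h
  · refine Finset.sum_congr rfl fun p hp => ?_
    rw [Finset.HasAntidiagonal.mem_antidiagonal] at hp
    have hdeg : p.1.degree + p.2.degree = j := by
      rw [← h, ← hp, map_add]
    rw [Finset.sum_eq_single p.1.degree]
    · rw [if_pos rfl, if_pos (by omega)]
    · intro i _ hi
      rw [if_neg (Ne.symm hi), zero_mul]
    · intro hn
      rw [Finset.mem_range] at hn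
      omega
  · symm
    refine Finset.sum_eq_zero fun p hp => Finset.sum_eq_zero fun i hi => ?_
    rw [Finset.HasAntidiagonal.mem_antidiagonal] at hp
    rw [Finset.mem_range] at hi
    split_ifs with h1 h2 h2
    · exfalso
      apply h
      rw [← hp, map_add, h1, h2]
      omega
    · rw [mul_zero]
    · rw [zero_mul]
    · rw [zero_mul]

section

variable (k : Type*) {K : Type*} [Field k] [Field K] [Algebra k K] (σ : Type*)

/-- evaluation of the generic constants -/
noncomputable def ev : MvPolynomial (σ ⊕ K) k →ₐ[k] MvPolynomial σ K :=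
  aeval (Sum.elim X C)

/-- the inputs: the variables and the generic constants in `T` -/
def inp (T : Set K) : Set (MvPolynomial (σ ⊕ K) k) :=
  (Set.range fun x : σ => X (Sum.inl x)) ∪ ((fun a : K => X (Sum.inr a)) '' T)

variable {k σ}

theorem inp_mono {T T' : Set K} (h : T ⊆ T') : inp k σ T ⊆ inp k σ T' :=
  Set.union_subset_union_right _ (Set.image_mono h)

/-- the homogeneous components of `g` of degree at most `d` have been computed generically -/
def HasComps (d N : ℕ) (T : Set K) (l : List (MvPolynomial (σ ⊕ K) k))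
    (g : MvPolynomial σ K) : Prop :=
  (∃ G, Avail k (inp k σ T) l G ∧ ev k σ G = homogeneousComponent 0 g ∧ G.totalDegree ≤ 1) ∧
  ∀ j, 1 ≤ j → j ≤ d → ∃ G, Avail k (inp k σ T) l G ∧ ev k σ G = homogeneousComponent j g ∧
    G.totalDegree ≤ j * (N + 1)

theorem HasComps.mono {d N N' : ℕ} {T T' : Set K} {l l' : List (MvPolynomial (σ ⊕ K) k)}
    {g : MvPolynomial σ K} (hN : N ≤ N') (hT : T ⊆ T') (hl : ∀ x ∈ l, x ∈ l')
    (h : HasComps d N T l g) : HasComps d N' T' l' g := by
  obtain ⟨⟨G, h1, h2, h3⟩, h4⟩ := h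
  refine ⟨⟨G, (h1.mono_inputs (inp_mono hT)).mono_list hl, h2, h3⟩, fun j hj hjd => ?_⟩
  obtain ⟨G, h1, h2, h3⟩ := h4 j hj hjd
  exact ⟨G, (h1.mono_inputs (inp_mono hT)).mono_list hl, h2,
    h3.trans (Nat.mul_le_mul_left _ (by omega))⟩

theorem hasComps_X (d N : ℕ) (T : Set K) (l : List (MvPolynomial (σ ⊕ K) k)) (x : σ) :
    HasComps d N T l (X x : MvPolynomial σ K) := by
  refine ⟨⟨0, Avail.zero, ?_, by simp⟩, fun j hj _ => ?_⟩
  · rw [map_zero, homogeneousComponent_of_mem (isHomogeneous_X K x), if_neg (by norm_num)]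
  · by_cases h1 : j = 1
    · subst h1
      refine ⟨X (Sum.inl x), Or.inl (Or.inl ⟨x, rfl⟩), ?_, ?_⟩
      · rw [homogeneousComponent_of_mem (isHomogeneous_X K x), if_pos rfl]
        simp [ev]
      · rw [totalDegree_X]
        omega
    · refine ⟨0, Avail.zero, ?_, by simp⟩
      rw [map_zero, homogeneousComponent_of_mem (isHomogeneous_X K x), if_neg h1]

theorem hasComps_C (d N : ℕ) (T : Set K) (l : List (MvPolynomial (σ ⊕ K) k)) {c : K}
    (hc : c ∈ T) : HasComps d N T l (C c : MvPolynomial σ K) := by
  refine ⟨⟨X (Sum.inr c), Or.inl (Or.inr ⟨c, hc, rfl⟩), ?_, ?_⟩, fun j hj _ => ?_⟩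
  · rw [homogeneousComponent_of_mem (isHomogeneous_C σ c), if_pos rfl]
    simp [ev]
  · rw [totalDegree_X]
  · refine ⟨0, Avail.zero, ?_, by simp⟩
    rw [map_zero, homogeneousComponent_of_mem (isHomogeneous_C σ c), if_neg (by omega)]

/-- operands of a new operation -/
theorem hasComps_avail {d N : ℕ} {T : Set K} {l : List (MvPolynomial (σ ⊕ K) k)}
    {l0 : List (MvPolynomial σ K)} (h : ∀ g ∈ l0, HasComps d N T l g) {a : MvPolynomial σ K}
    (ha : Avail K (Set.range X) l0 a) : ∃ c : K, HasComps d N (T ∪ {c}) l a := by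
  rcases ha with ⟨x, rfl⟩ | ⟨c, rfl⟩ | ha
  · exact ⟨0, hasComps_X _ _ _ _ x⟩
  · exact ⟨c, hasComps_C _ _ _ _ (Or.inr rfl)⟩
  · exact ⟨0, (h a ha).mono le_rfl Set.subset_union_left fun _ hx => hx⟩

/-- computing the positive degree components of the result of an operation -/
theorem comps_step {d N : ℕ} {T : Set K} {l : List (MvPolynomial (σ ⊕ K) k)}
    (hl : IsSLP k (inp k σ T) l) {a b g : MvPolynomial σ K} (ha : HasComps d N T l a)
    (hb : HasComps d N T l b) (hg : g = a + b ∨ g = a - b ∨ g = a * b) (e : ℕ) (he : e ≤ d) :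
    ∃ l', IsSLP k (inp k σ T) l' ∧ l'.length ≤ l.length + e * (2 * (d + 1)) ∧
      (∀ x ∈ l, x ∈ l') ∧ ∀ j, 1 ≤ j → j ≤ e → ∃ G, Avail k (inp k σ T) l' G ∧
        ev k σ G = homogeneousComponent j g ∧ G.totalDegree ≤ j * (N + 1 + 1) := by
  induction e with
  | zero => exact ⟨l, hl, by simp, fun x hx => hx, fun j h1 h2 => by omega⟩
  | succ e ih =>
    obtain ⟨l', hl', hlen, hsub, hcomp⟩ := ih (by omega)
    -- components of the operands
    have hA : ∃ GA : ℕ → MvPolynomial (σ ⊕ K) k, ∀ j ≤ d, Avail k (inp k σ T) l (GA j) ∧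
        ev k σ (GA j) = homogeneousComponent j a ∧
        (GA j).totalDegree ≤ (if j = 0 then 1 else j * (N + 1)) := by
      have : ∀ j, ∃ G, j ≤ d → Avail k (inp k σ T) l G ∧ ev k σ G = homogeneousComponent j a ∧
          G.totalDegree ≤ (if j = 0 then 1 else j * (N + 1)) := by
        intro j
        by_cases hj : j = 0
        · subst hj
          obtain ⟨G, h1, h2, h3⟩ := ha.1
          exact ⟨G, fun _ => ⟨h1, h2, by simpa using h3⟩⟩
        · by_cases hjd : j ≤ d
          · obtain ⟨G, h1, h2, h3⟩ := ha.2 j (by omega) hjd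
            exact ⟨G, fun _ => ⟨h1, h2, by rw [if_neg hj]; exact h3⟩⟩
          · exact ⟨0, fun h => absurd h hjd⟩
      choose GA hGA using this
      exact ⟨GA, fun j hj => hGA j hj⟩
    have hB : ∃ GB : ℕ → MvPolynomial (σ ⊕ K) k, ∀ j ≤ d, Avail k (inp k σ T) l (GB j) ∧
        ev k σ (GB j) = homogeneousComponent j b ∧
        (GB j).totalDegree ≤ (if j = 0 then 1 else j * (N + 1)) := by
      have : ∀ j, ∃ G, j ≤ d → Avail k (inp k σ T) l G ∧ ev k σ G = homogeneousComponent j b ∧
          G.totalDegree ≤ (if j = 0 then 1 else j * (N + 1)) := by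
        intro j
        by_cases hj : j = 0
        · subst hj
          obtain ⟨G, h1, h2, h3⟩ := hb.1
          exact ⟨G, fun _ => ⟨h1, h2, by simpa using h3⟩⟩
        · by_cases hjd : j ≤ d
          · obtain ⟨G, h1, h2, h3⟩ := hb.2 j (by omega) hjd
            exact ⟨G, fun _ => ⟨h1, h2, by rw [if_neg hj]; exact h3⟩⟩
          · exact ⟨0, fun h => absurd h hjd⟩
      choose GB hGB using this
      exact ⟨GB, fun j hj => hGB j hj⟩
    obtain ⟨GA, hGA⟩ := hA
    obtain ⟨GB, hGB⟩ := hB
    -- the new component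
    have hnew : ∃ l'', IsSLP k (inp k σ T) l'' ∧ l''.length ≤ l'.length + 2 * (d + 1) ∧
        (∀ x ∈ l', x ∈ l'') ∧ ∃ G, Avail k (inp k σ T) l'' G ∧
          ev k σ G = homogeneousComponent (e + 1) g ∧ G.totalDegree ≤ (e + 1) * (N + 1 + 1) := by
      obtain ⟨hA1, hA2, hA3⟩ := hGA (e + 1) he
      obtain ⟨hB1, hB2, hB3⟩ := hGB (e + 1) he
      rw [if_neg (by omega)] at hA3 hB3
      have hbd : (e + 1) * (N + 1) ≤ (e + 1) * (N + 1 + 1) := Nat.mul_le_mul_left _ (by omega)
      rcases hg with rfl | rfl | rfl
      · refine ⟨_, hl'.add (hA1.mono_list hsub) (hB1.mono_list hsub), ?_, ?_, _, Avail.head, ?_, ?_⟩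
        · simp only [List.length_cons]; omega
        · intro x hx; exact List.mem_cons_of_mem _ hx
        · rw [map_add, map_add, hA2, hB2]
        · exact (totalDegree_add _ _).trans ((max_le hA3 hB3).trans hbd)
      · refine ⟨_, hl'.sub (hA1.mono_list hsub) (hB1.mono_list hsub), ?_, ?_, _, Avail.head, ?_, ?_⟩
        · simp only [List.length_cons]; omega
        · intro x hx; exact List.mem_cons_of_mem _ hx
        · rw [map_sub, map_sub, hA2, hB2]
        · exact (totalDegree_sub _ _).trans ((max_le hA3 hB3).trans hbd)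
      · obtain ⟨l'', hl'', hlen'', hsub'', hav''⟩ := hl'.sum_mul (e + 2) (fun i => GA i)
          (fun i => GB (e + 1 - i)) (fun i hi => ((hGA i (by omega)).1).mono_list hsub)
          (fun i hi => ((hGB (e + 1 - i) (by omega)).1).mono_list hsub)
        refine ⟨l'', hl'', by omega, hsub'', _, hav'', ?_, ?_⟩
        · rw [map_sum, hc_mul]
          refine Finset.sum_congr rfl fun i hi => ?_
          rw [Finset.mem_range] at hi
          rw [map_mul, (hGA i (by omega)).2.1, (hGB (e + 1 - i) (by omega)).2.1]
        · refine (totalDegree_finsetSum _ _).trans (Finset.sup_le fun i hi => ?_)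
          rw [Finset.mem_range] at hi
          refine (totalDegree_mul _ _).trans ?_
          have h1 := (hGA i (by omega)).2.2
          have h2 := (hGB (e + 1 - i) (by omega)).2.2
          by_cases hi0 : i = 0
          · subst hi0
            rw [if_pos rfl] at h1
            rw [if_neg (by omega)] at h2
            have : (e + 1 - 0) * (N + 1) = (e + 1) * (N + 1) := by simp
            rw [this] at h2
            nlinarith
          · by_cases hie : i = e + 1
            · subst hie
              rw [if_neg (by omega)] at h1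
              rw [if_pos (by omega)] at h2
              nlinarith
            · rw [if_neg hi0] at h1
              rw [if_neg (by omega)] at h2
              have h3 : i * (N + 1) + (e + 1 - i) * (N + 1) = (e + 1) * (N + 1) := by
                rw [← add_mul]
                congr 1
                omega
              omega
    obtain ⟨l'', hl'', hlen'', hsub'', G, hG1, hG2, hG3⟩ := hnew
    refine ⟨l'', hl'', ?_, fun x hx => hsub'' x (hsub x hx), fun j hj1 hj2 => ?_⟩
    · have : (e + 1) * (2 * (d + 1)) = e * (2 * (d + 1)) + 2 * (d + 1) := by ring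
      omega
    · by_cases hje : j = e + 1
      · subst hje
        exact ⟨G, hG1, hG2, hG3⟩
      · obtain ⟨G', h1, h2, h3⟩ := hcomp j hj1 (by omega)
        exact ⟨G', h1.mono_list hsub'', h2, h3⟩

/-- The generic version of a straight-line program. -/
theorem generic_slp (d : ℕ) {l : List (MvPolynomial σ K)} (hl : IsSLP K (Set.range X) l) :
    ∃ (T : Finset K) (l' : List (MvPolynomial (σ ⊕ K) k)), T.card ≤ 3 * l.length ∧
      IsSLP k (inp k σ (T : Set K)) l' ∧ l'.length ≤ l.length * (d * (2 * (d + 1))) ∧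
      ∀ g ∈ l, HasComps d l.length (T : Set K) l' g := by
  classical
  induction hl with
  | nil => exact ⟨∅, [], by simp, IsSLP.nil, by simp, by simp⟩
  | @cons l a b g _ ha hb hg ih =>
    obtain ⟨T, l', hT, hl', hlen, hcomp⟩ := ih
    obtain ⟨ca, hca⟩ := hasComps_avail hcomp ha
    obtain ⟨cb, hcb⟩ := hasComps_avail hcomp hb
    let T' : Finset K := T ∪ {ca, cb, coeff 0 g}
    have hsubT : (T : Set K) ⊆ T' := by
      intro x hx
      simp only [T', Finset.coe_union, Set.mem_union]
      exact Or.inl hx
    have hca' : HasComps d l.length (T' : Set K) l' a := by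
      refine hca.mono le_rfl ?_ fun _ hx => hx
      rintro x (hx | hx)
      · exact hsubT hx
      · rw [Set.mem_singleton_iff] at hx
        subst hx
        simp [T']
    have hcb' : HasComps d l.length (T' : Set K) l' b := by
      refine hcb.mono le_rfl ?_ fun _ hx => hx
      rintro x (hx | hx)
      · exact hsubT hx
      · rw [Set.mem_singleton_iff] at hx
        subst hx
        simp [T']
    obtain ⟨l'', hl'', hlen'', hsub'', hcomp''⟩ :=
      comps_step (hl'.mono_inputs (inp_mono hsubT)) hca' hcb' hg d le_rfl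
    refine ⟨T', l'', ?_, hl'', ?_, ?_⟩
    · refine (Finset.card_union_le _ _).trans ?_
      have : ({ca, cb, coeff 0 g} : Finset K).card ≤ 3 := Finset.card_le_three
      rw [List.length_cons]
      omega
    · rw [List.length_cons, add_mul, one_mul]
      omega
    · intro x hx
      rw [List.mem_cons] at hx
      rcases hx with rfl | hx
      · refine ⟨⟨X (Sum.inr (coeff 0 x)), Or.inl (Or.inr ⟨_, by simp [T'], rfl⟩), ?_, ?_⟩, ?_⟩
        · rw [homogeneousComponent_zero]
          simp [ev]
        · rw [totalDegree_X]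
        · intro j hj1 hj2
          exact hcomp'' j hj1 hj2
      · exact (hcomp x hx).mono (by simp) hsubT hsub''

/-- The generic version of a computation of a polynomial of degree at most `d`. -/
theorem generic_computedBy (d r : ℕ) {g : MvPolynomial σ K} (hd : g.totalDegree ≤ d)
    (hg : ComputedBy K (Set.range X) r g) :
    ∃ (T : Finset K) (G : MvPolynomial (σ ⊕ K) k), T.card ≤ 3 * (r + 1) ∧
      ComputedBy k (inp k σ (T : Set K)) (r * (d * (2 * (d + 1))) + (d + 1)) G ∧
      ev k σ G = g ∧ G.totalDegree ≤ (d + 1) * (r + 1) := by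
  classical
  obtain ⟨l, hl, hlen, hav⟩ := hg
  obtain ⟨T, l', hT, hl', hlen', hcomp⟩ := generic_slp (k := k) d hl
  obtain ⟨c, hc⟩ := hasComps_avail hcomp hav
  let T' : Finset K := T ∪ {c}
  have hT' : (T : Set K) ∪ {c} = (T' : Set K) := by simp [T']
  rw [hT'] at hc
  have hex : ∀ j, ∃ G, j < d + 1 → Avail k (inp k σ (T' : Set K)) l' G ∧
      ev k σ G = homogeneousComponent j g ∧ G.totalDegree ≤ (d + 1) * (r + 1) := by
    intro j
    by_cases hj : j = 0
    · subst hj
      obtain ⟨G, h1, h2, h3⟩ := hc.1
      refine ⟨G, fun _ => ⟨h1, h2, h3.trans ?_⟩⟩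
      nlinarith
    · by_cases hjd : j ≤ d
      · obtain ⟨G, h1, h2, h3⟩ := hc.2 j (by omega) hjd
        refine ⟨G, fun _ => ⟨h1, h2, h3.trans ?_⟩⟩
        exact Nat.mul_le_mul (by omega) (by omega)
      · exact ⟨0, fun h => absurd h (by omega)⟩
  choose G hG using hex
  have hsubT : (T : Set K) ⊆ T' := by
    rw [← hT']
    exact Set.subset_union_left
  obtain ⟨l'', hl'', hlen'', hsub'', hav''⟩ := (hl'.mono_inputs (inp_mono hsubT)).sum (d + 1) G
    (fun j hj => (hG j hj).1)
  refine ⟨T', ∑ j ∈ Finset.range (d + 1), G j, ?_, ⟨l'', hl'', ?_, hav''⟩, ?_, ?_⟩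
  · refine (Finset.card_union_le _ _).trans ?_
    rw [Finset.card_singleton]
    omega
  · have : l.length * (d * (2 * (d + 1))) ≤ r * (d * (2 * (d + 1))) :=
      Nat.mul_le_mul_right _ hlen
    omega
  · rw [map_sum]
    have h1 : ∑ j ∈ Finset.range (d + 1), ev k σ (G j) =
        ∑ j ∈ Finset.range (d + 1), homogeneousComponent j g :=
      Finset.sum_congr rfl fun j hj => (hG j (Finset.mem_range.1 hj)).2.1
    rw [h1]
    conv_rhs => rw [← sum_homogeneousComponent g]
    symm
    refine Finset.sum_subset ?_ ?_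
    · intro x hx
      rw [Finset.mem_range] at hx ⊢
      omega
    · intro x _ hx
      rw [Finset.mem_range] at hx
      exact homogeneousComponent_eq_zero _ _ (by omega)
  · refine (totalDegree_finsetSum _ _).trans (Finset.sup_le fun i hi => ?_)
    exact (hG i (Finset.mem_range.1 hi)).2.2

end

end Pool.Agent.H53.AC
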