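import Pool.Agent.H53.AC.Defs

namespace Pool.Agent.H53.AC

open MvPolynomial

section General

variable {k : Type*} {A : Type*} [CommRing k] [CommRing A] [Algebra k A] {S : Set A}

theorem Avail.mono_list {l l' : List A} (h : ∀ x ∈ l, x ∈ l') {a : A} (ha : Avail k S l a) :
    Avail k S l' a := by
  rcases ha with ha | ha | ha
  · exact Or.inl ha
  · exact Or.inr (Or.inl ha)
  · exact Or.inr (Or.inr (h a ha))

theorem Avail.mono_inputs {S' : Set A} {l : List A} (h : S ⊆ S') {a : A} (ha : Avail k S l a) :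
    Avail k S' l a := by
  rcases ha with ha | ha | ha
  · exact Or.inl (h ha)
  · exact Or.inr (Or.inl ha)
  · exact Or.inr (Or.inr ha)

theorem Avail.const {l : List A} (c : k) : Avail k S l (algebraMap k A c) :=
  Or.inr (Or.inl ⟨c, rfl⟩)

theorem Avail.zero {l : List A} : Avail k S l (0 : A) :=
  Or.inr (Or.inl ⟨0, by simp⟩)

theorem IsSLP.mono_inputs {S' : Set A} {l : List A} (h : S ⊆ S') (hl : IsSLP k S l) :
    IsSLP k S' l := by
  induction hl with
  | nil => exact IsSLP.nil
  | cons _ ha hb hg ih => exact IsSLP.cons ih (ha.mono_inputs h) (hb.mono_inputs h) hg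

theorem IsSLP.append {l l' : List A} (hl : IsSLP k S l) (hl' : IsSLP k S l') :
    IsSLP k S (l' ++ l) := by
  induction hl' with
  | nil => exact hl
  | cons _ ha hb hg ih =>
    refine IsSLP.cons ih (ha.mono_list ?_) (hb.mono_list ?_) hg
    · intro x hx; exact List.mem_append_left _ hx
    · intro x hx; exact List.mem_append_left _ hx

/-- images of straight-line programs under ring homomorphisms -/
theorem IsSLP.map {k' : Type*} {B : Type*} [CommRing k'] [CommRing B] [Algebra k' B] {S' : Set B}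
    (φ : A →+* B) (hS : ∀ s ∈ S, Avail k' S' [] (φ s))
    (hc : ∀ c : k, Avail k' S' [] (φ (algebraMap k A c))) {l : List A} (hl : IsSLP k S l) :
    IsSLP k' S' (l.map φ) := by
  have key : ∀ {l : List A} {a : A}, Avail k S l a → Avail k' S' (l.map φ) (φ a) := by
    intro l a ha
    rcases ha with ha | ⟨c, rfl⟩ | ha
    · exact (hS a ha).mono_list (by simp)
    · exact (hc c).mono_list (by simp)
    · exact Or.inr (Or.inr (List.mem_map_of_mem ha))
  induction hl with
  | nil => exact IsSLP.nil
  | @cons l a b g _ ha hb hg ih =>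
    rw [List.map_cons]
    refine IsSLP.cons ih (key ha) (key hb) ?_
    rcases hg with rfl | rfl | rfl
    · exact Or.inl (map_add φ a b)
    · exact Or.inr (Or.inl (map_sub φ a b))
    · exact Or.inr (Or.inr (map_mul φ a b))

theorem Avail.map {k' : Type*} {B : Type*} [CommRing k'] [CommRing B] [Algebra k' B] {S' : Set B}
    (φ : A →+* B) (hS : ∀ s ∈ S, Avail k' S' [] (φ s))
    (hc : ∀ c : k, Avail k' S' [] (φ (algebraMap k A c))) {l : List A} {a : A}
    (ha : Avail k S l a) : Avail k' S' (l.map φ) (φ a) := by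
  rcases ha with ha | ⟨c, rfl⟩ | ha
  · exact (hS a ha).mono_list (by simp)
  · exact (hc c).mono_list (by simp)
  · exact Or.inr (Or.inr (List.mem_map_of_mem ha))

theorem ComputedBy.map {k' : Type*} {B : Type*} [CommRing k'] [CommRing B] [Algebra k' B]
    {S' : Set B} (φ : A →+* B) (hS : ∀ s ∈ S, Avail k' S' [] (φ s))
    (hc : ∀ c : k, Avail k' S' [] (φ (algebraMap k A c))) {r : ℕ} {f : A}
    (h : ComputedBy k S r f) : ComputedBy k' S' r (φ f) := by
  obtain ⟨l, hl, hr, hf⟩ := h
  exact ⟨l.map φ, hl.map φ hS hc, by simpa using hr, hf.map φ hS hc⟩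

/-- two ring homomorphisms agreeing on inputs and constants agree on everything computed -/
theorem IsSLP.hom_eq {B : Type*} [CommRing B] (φ ψ : A →+* B) (hS : ∀ s ∈ S, φ s = ψ s)
    (hc : ∀ c : k, φ (algebraMap k A c) = ψ (algebraMap k A c)) {l : List A}
    (hl : IsSLP k S l) : ∀ a, Avail k S l a → φ a = ψ a := by
  induction hl with
  | nil =>
    rintro a (ha | ⟨c, rfl⟩ | ha)
    · exact hS a ha
    · exact hc c
    · simp at ha
  | @cons l a b g _ ha hb hg ih =>
    rintro x (hx | ⟨c, rfl⟩ | hx)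
    · exact hS x hx
    · exact hc c
    · rw [List.mem_cons] at hx
      rcases hx with rfl | hx
      · have h1 := ih a ha
        have h2 := ih b hb
        rcases hg with rfl | rfl | rfl
        · rw [map_add, map_add, h1, h2]
        · rw [map_sub, map_sub, h1, h2]
        · rw [map_mul, map_mul, h1, h2]
      · exact ih x (Or.inr (Or.inr hx))

/-- one more addition -/
theorem IsSLP.add {l : List A} (hl : IsSLP k S l) {a b : A} (ha : Avail k S l a)
    (hb : Avail k S l b) : IsSLP k S ((a + b) :: l) := hl.cons ha hb (Or.inl rfl)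

theorem IsSLP.sub {l : List A} (hl : IsSLP k S l) {a b : A} (ha : Avail k S l a)
    (hb : Avail k S l b) : IsSLP k S ((a - b) :: l) := hl.cons ha hb (Or.inr (Or.inl rfl))

theorem IsSLP.mul {l : List A} (hl : IsSLP k S l) {a b : A} (ha : Avail k S l a)
    (hb : Avail k S l b) : IsSLP k S ((a * b) :: l) := hl.cons ha hb (Or.inr (Or.inr rfl))

theorem Avail.head {l : List A} {a : A} : Avail k S (a :: l) a :=
  Or.inr (Or.inr List.mem_cons_self)

theorem Avail.cons {l : List A} {a b : A} (h : Avail k S l a) : Avail k S (b :: l) a :=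
  h.mono_list fun _ hx => List.mem_cons_of_mem _ hx

/-- computing `∑_{j<n} a_j b_j` -/
theorem IsSLP.sum_mul {l : List A} (hl : IsSLP k S l) (n : ℕ) (a b : ℕ → A)
    (ha : ∀ j < n, Avail k S l (a j)) (hb : ∀ j < n, Avail k S l (b j)) :
    ∃ l', IsSLP k S l' ∧ l'.length ≤ l.length + 2 * n ∧ (∀ x ∈ l, x ∈ l') ∧
      Avail k S l' (∑ j ∈ Finset.range n, a j * b j) := by
  induction n with
  | zero => exact ⟨l, hl, by simp, fun x hx => hx, by simpa using Avail.zero⟩
  | succ n ih =>
    obtain ⟨l', hl', hlen, hsub, hav⟩ := ih (fun j hj => ha j (by omega)) fun j hj => hb j (by omega)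
    have h1 := hl'.mul ((ha n (by omega)).mono_list hsub) ((hb n (by omega)).mono_list hsub)
    have h2 := h1.add hav.cons Avail.head
    refine ⟨_, h2, ?_, ?_, ?_⟩
    · simp only [List.length_cons]; omega
    · intro x hx
      exact List.mem_cons_of_mem _ (List.mem_cons_of_mem _ (hsub x hx))
    · rw [Finset.sum_range_succ]
      exact Avail.head

/-- computing `∑_{j<n} a_j` -/
theorem IsSLP.sum {l : List A} (hl : IsSLP k S l) (n : ℕ) (a : ℕ → A)
    (ha : ∀ j < n, Avail k S l (a j)) :
    ∃ l', IsSLP k S l' ∧ l'.length ≤ l.length + n ∧ (∀ x ∈ l, x ∈ l') ∧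
      Avail k S l' (∑ j ∈ Finset.range n, a j) := by
  induction n with
  | zero => exact ⟨l, hl, by simp, fun x hx => hx, by simpa using Avail.zero⟩
  | succ n ih =>
    obtain ⟨l', hl', hlen, hsub, hav⟩ := ih (fun j hj => ha j (by omega))
    have h1 := hl'.add hav ((ha n (by omega)).mono_list hsub)
    refine ⟨_, h1, ?_, ?_, ?_⟩
    · simp only [List.length_cons]; omega
    · intro x hx
      exact List.mem_cons_of_mem _ (hsub x hx)
    · rw [Finset.sum_range_succ]
      exact Avail.head

end General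

/-! ### Polynomially bounded functions -/

theorem PBounded.mono {s t : ℕ → ℕ} (h : ∀ n, s n ≤ t n) (ht : PBounded t) : PBounded s := by
  obtain ⟨p, hp⟩ := ht
  exact ⟨p, fun n => (h n).trans (hp n)⟩

theorem PBounded.add {s t : ℕ → ℕ} (hs : PBounded s) (ht : PBounded t) :
    PBounded (fun n => s n + t n) := by
  obtain ⟨p, hp⟩ := hs
  obtain ⟨q, hq⟩ := ht
  refine ⟨p + q, fun n => ?_⟩
  rw [Polynomial.eval_add]
  exact add_le_add (hp n) (hq n)

theorem PBounded.mul {s t : ℕ → ℕ} (hs : PBounded s) (ht : PBounded t) :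
    PBounded (fun n => s n * t n) := by
  obtain ⟨p, hp⟩ := hs
  obtain ⟨q, hq⟩ := ht
  refine ⟨p * q, fun n => ?_⟩
  rw [Polynomial.eval_mul]
  exact mul_le_mul (hp n) (hq n) (Nat.zero_le _) (Nat.zero_le _)

theorem PBounded.const (c : ℕ) : PBounded (fun _ => c) :=
  ⟨Polynomial.C c, fun n => by simp⟩

end Pool.Agent.H53.AC
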