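import Pool.Agent.H53.AC.Finite

/-! Transfer of the inclusion `VNP ⊆ approximative VP` between fields. -/

namespace Pool.Agent.H53.AC

open MvPolynomial

universe u v w x y

section

variable {k : Type u} {K : Type v} [Field k] [Field K] [Algebra k K]

theorem map_substBits {σ : Type} {u : ℕ} (g : MvPolynomial (σ ⊕ Fin u) k) (e : Fin u → Bool) :
    map (algebraMap k K) (substBits g e) = substBits (map (algebraMap k K) g) e := by
  have h : (map (algebraMap k K)).comp
      ((aeval (Sum.elim X (fun i => if e i then 1 else 0)) :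
        MvPolynomial (σ ⊕ Fin u) k →ₐ[k] MvPolynomial σ k) :
        MvPolynomial (σ ⊕ Fin u) k →+* MvPolynomial σ k) =
      ((aeval (Sum.elim X (fun i => if e i then 1 else 0)) :
        MvPolynomial (σ ⊕ Fin u) K →ₐ[K] MvPolynomial σ K) :
        MvPolynomial (σ ⊕ Fin u) K →+* MvPolynomial σ K).comp (map (algebraMap k K)) := by
    apply MvPolynomial.ringHom_ext
    · intro a
      simp
    · rintro (x | i)
      · simp
      · simp only [RingHom.comp_apply, RingHom.coe_coe, aeval_X, map_X, Sum.elim_inr]
        split_ifs <;> simp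
  exact DFunLike.congr_fun h g

theorem totalDegree_map_le' {σ : Type*} (p : MvPolynomial σ k) :
    (map (algebraMap k K) p).totalDegree ≤ p.totalDegree := by
  unfold totalDegree
  exact Finset.sup_mono (support_map_subset _ _)

/-- extension of scalars for `VNP` -/
theorem inVNP_map {σ : ℕ → Type} [∀ n, Fintype (σ n)] {f : ∀ n, MvPolynomial (σ n) k}
    (h : InVNP f) : InVNP (fun n => map (algebraMap k K) (f n)) := by
  obtain ⟨⟨hcard, hdeg⟩, u, hu, g, ⟨⟨hgcard, hgdeg⟩, r, hr, hcomp⟩, hsum⟩ := h
  refine ⟨⟨hcard, PBounded.mono (fun n => totalDegree_map_le' _) hdeg⟩, u, hu,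
    fun n => map (algebraMap k K) (g n), ⟨⟨hgcard, PBounded.mono (fun n => totalDegree_map_le' _)
      hgdeg⟩, r, hr, fun n => ?_⟩, fun n => ?_⟩
  · refine ComputedBy.map (map (algebraMap k K)) ?_ ?_ (hcomp n)
    · rintro _ ⟨x, rfl⟩
      exact Or.inl ⟨x, by simp⟩
    · intro c
      exact Or.inr (Or.inl ⟨algebraMap k K c, by simp⟩)
  · change map (algebraMap k K) (f n) = _
    rw [hsum n, map_sum]
    exact Finset.sum_congr rfl fun e _ => map_substBits _ _

/-- descent to an algebraically closed field -/
theorem downward [IsAlgClosed k] (h : VNPSubsetBorderVP K) : VNPSubsetBorderVP k := by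
  intro σ _ f hf
  obtain ⟨-, r, hr, hb⟩ := h σ _ (inVNP_map (K := K) hf)
  exact ⟨hf.1, r, hr, fun n => border_descend (hb n)⟩

/-- `HasPoints k K N`: every finitely generated `k`-subalgebra of the extension field `K` of `k`
has a `k`-algebra homomorphism to some extension field of `k` of degree at most `N`. -/
def HasPoints (k : Type u) (K : Type v) [Field k] [Field K] [Algebra k K] (N : ℕ) : Prop :=
  ∀ Z : Finset K, ∃ (k' : Type w) (_ : Field k') (_ : Algebra k k'), FiniteDimensional k k' ∧
    Module.finrank k k' ≤ N ∧ Nonempty (Algebra.adjoin k (Z : Set K) →ₐ[k] k')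

theorem BorderComplexityLE.mono {σ : Type*} {f : MvPolynomial σ k} {r r' : ℕ} (h : r ≤ r')
    (hf : BorderComplexityLE f r) : BorderComplexityLE f r' := by
  obtain ⟨F, hspec, l, hl, hlen, hav⟩ := hf
  exact ⟨F, hspec, l, hl, hlen.trans h, hav⟩

/-- descent along an extension with points of bounded degree -/
theorem downward_points {N : ℕ} (hp : HasPoints.{u, v, w} k K N) (h : VNPSubsetBorderVP K) :
    VNPSubsetBorderVP k := by
  intro σ _ f hf
  obtain ⟨-, r, hr, hb⟩ := h σ _ (inVNP_map (K := K) hf)
  refine ⟨hf.1, _, hr.mul (PBounded.const (N * N + N * (2 * (N * N)))), fun n => ?_⟩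
  obtain ⟨Z, hZ⟩ := border_specialize.{u, v, 0, w} (hb n)
  obtain ⟨k', _, _, hfin, hrank, hpt⟩ := hp Z
  have h1 := hZ k' hpt
  obtain ⟨ι, _, b, i0, hb0⟩ := exists_basis_one k k'
  have h2 := border_restrict b hb0 h1
  refine h2.mono (Nat.mul_le_mul_left _ ?_)
  rw [Module.finrank_eq_card_basis b] at hrank
  rw [Fintype.card_prod, mul_one]
  gcongr

end

/-- all fields containing an algebraically closed field behave best -/
theorem transfer_aux {F k L K : Type*} [Field F] [Field k] [Field L] [Field K] [Algebra F k]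
    [Algebra F L] [IsAlgClosed L] (φ : L →+* K) (h : VNPSubsetBorderVP k) :
    VNPSubsetBorderVP K := by
  have h1 : VNPSubsetBorderVP (AlgebraicClosure k) := upward h
  let i : AlgebraicClosure F →ₐ[F] AlgebraicClosure k := IsAlgClosed.lift
  let _ : Algebra (AlgebraicClosure F) (AlgebraicClosure k) := i.toRingHom.toAlgebra
  have h2 : VNPSubsetBorderVP (AlgebraicClosure F) := downward h1
  let j : AlgebraicClosure F →ₐ[F] L := IsAlgClosed.lift
  let _ : Algebra (AlgebraicClosure F) K := (φ.comp j.toRingHom).toAlgebra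
  exact upward h2

/-- The transfer theorem. -/
theorem transfer {k : Type u} {K : Type v} {K' : Type w} {L : Type x} [Field k] [Field K]
    [Field K'] [Field L] [Algebra K K'] {N : ℕ} (hN : HasPoints.{v, w, y} K K' N)
    (h : Nonempty (k →+* K') ∨ (ringChar k = ringChar K ∧ IsAlgClosed L ∧ Nonempty (L →+* K')))
    (hk : VNPSubsetBorderVP k) : VNPSubsetBorderVP K := by
  apply downward_points hN
  rcases h with ⟨⟨φ⟩⟩ | ⟨hchar, hL, ⟨φ⟩⟩
  · let _ : Algebra k K' := φ.toAlgebra
    exact upward hk
  · have c1 : CharP K' (ringChar L) := charP_of_injective_ringHom φ.injective (ringChar L)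
    have c2 : CharP K' (ringChar K) :=
      charP_of_injective_ringHom (algebraMap K K').injective (ringChar K)
    have hLk : ringChar L = ringChar k := by
      rw [hchar]
      exact CharP.eq K' c1 c2
    obtain ⟨p, hp⟩ : ∃ p, p = ringChar k := ⟨_, rfl⟩
    have ck : CharP k p := by rw [hp]; infer_instance
    have cL : CharP L p := by rw [hp, ← hLk]; infer_instance
    rcases CharP.char_is_prime_or_zero k p with hp | hp
    · have : Fact p.Prime := ⟨hp⟩
      let _ : Algebra (ZMod p) k := ZMod.algebra k p
      let _ : Algebra (ZMod p) L := ZMod.algebra L p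
      exact transfer_aux (F := ZMod p) φ hk
    · subst hp
      have : CharZero k := CharP.charP_to_charZero k
      have : CharZero L := CharP.charP_to_charZero L
      exact transfer_aux (F := ℚ) φ hk

end Pool.Agent.H53.AC
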