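import Pool.Agent.H53.AC.Generic

/-! If `VNP ⊆ approximative VP` over `k` then the same over every extension field `K`. -/

namespace Pool.Agent.H53.AC

open MvPolynomial

section Spec

variable {k : Type*} [Field k]

theorem SpecializesTo.eq_zero {a : k} (h : SpecializesTo (0 : RatFunc k) a) : a = 0 := by
  obtain ⟨P, Q, hQ, hPQ, rfl⟩ := h
  have hQ0 : Q ≠ 0 := by
    rintro rfl
    simp at hQ
  have h1 : algebraMap (Polynomial k) (RatFunc k) Q ≠ 0 := by
    rw [Ne, FaithfulSMul.algebraMap_eq_zero_iff]
    exact hQ0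
  have h2 : algebraMap (Polynomial k) (RatFunc k) P = 0 := by
    rw [eq_comm, div_eq_zero_iff] at hPQ
    rcases hPQ with h | h
    · exact h
    · exact absurd h h1
  rw [FaithfulSMul.algebraMap_eq_zero_iff] at h2
  rw [h2]
  simp

/-- A polynomial over `k(ε)` specializes to `H` if and only if this can be seen with a common
denominator. -/
theorem spec_iff {σ : Type*} {F : MvPolynomial σ (RatFunc k)} {H : MvPolynomial σ k} :
    (∀ m, SpecializesTo (coeff m F) (coeff m H)) ↔
      ∃ (P : MvPolynomial σ (Polynomial k)) (Q : Polynomial k), Q.eval 0 ≠ 0 ∧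
        map (algebraMap (Polynomial k) (RatFunc k)) P =
          C (algebraMap (Polynomial k) (RatFunc k) Q) * F ∧
        map (Polynomial.evalRingHom 0) P = C (Q.eval 0) * H := by
  classical
  constructor
  · intro h
    choose P Q hQ hPQ hval using h
    have hQ0 : ∀ m, algebraMap (Polynomial k) (RatFunc k) (Q m) ≠ 0 := by
      intro m
      rw [Ne, FaithfulSMul.algebraMap_eq_zero_iff]
      intro h0
      have := hQ m
      rw [h0] at this
      simp at this
    refine ⟨∑ m ∈ F.support, monomial m (P m * ∏ j ∈ F.support.erase m, Q j),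
      ∏ m ∈ F.support, Q m, ?_, ?_, ?_⟩
    · rw [Polynomial.eval_prod, Finset.prod_ne_zero_iff]
      intro m _
      exact hQ m
    · ext m
      rw [coeff_map, coeff_C_mul, coeff_sum]
      by_cases hm : m ∈ F.support
      · rw [Finset.sum_eq_single m]
        · rw [coeff_monomial, if_pos rfl, map_mul, hPQ m, ← Finset.mul_prod_erase _ _ hm, map_mul]
          field_simp [hQ0 m]
        · intro b _ hb
          rw [coeff_monomial, if_neg hb]
        · intro hn
          exact absurd hm hn
      · rw [Finset.sum_eq_zero, map_zero, notMem_support_iff.1 hm, mul_zero]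
        intro b hb
        rw [coeff_monomial, if_neg]
        rintro rfl
        exact hm hb
    · ext m
      rw [coeff_map, coeff_C_mul, coeff_sum]
      by_cases hm : m ∈ F.support
      · rw [Finset.sum_eq_single m]
        · rw [coeff_monomial, if_pos rfl, map_mul, hval m]
          rw [Polynomial.coe_evalRingHom, Polynomial.eval_prod, Polynomial.eval_prod,
            ← Finset.mul_prod_erase _ _ hm]
          field_simp [hQ m]
        · intro b _ hb
          rw [coeff_monomial, if_neg hb]
        · intro hn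
          exact absurd hm hn
      · rw [Finset.sum_eq_zero, map_zero]
        · have h1 : coeff m H = 0 := by
            apply SpecializesTo.eq_zero
            rw [← notMem_support_iff.1 hm]
            exact ⟨P m, Q m, hQ m, hPQ m, hval m⟩
          rw [h1, mul_zero]
        · intro b hb
          rw [coeff_monomial, if_neg]
          rintro rfl
          exact hm hb
  · rintro ⟨P, Q, hQ, h1, h2⟩ m
    have hQ0 : algebraMap (Polynomial k) (RatFunc k) Q ≠ 0 := by
      rw [Ne, FaithfulSMul.algebraMap_eq_zero_iff]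
      rintro rfl
      simp at hQ
    refine ⟨coeff m P, Q, hQ, ?_, ?_⟩
    · have := congrArg (coeff m) h1
      rw [coeff_map, coeff_C_mul] at this
      rw [this]
      field_simp
    · have := congrArg (coeff m) h2
      rw [coeff_map, coeff_C_mul, Polynomial.coe_evalRingHom] at this
      rw [this]
      field_simp

end Spec

/-- substituting polynomials of degree at most one does not increase the degree -/
theorem totalDegree_aeval_le {k σ τ : Type*} [CommSemiring k] (f : σ → MvPolynomial τ k)
    (hf : ∀ i, (f i).totalDegree ≤ 1) (p : MvPolynomial σ k) :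
    (aeval f p).totalDegree ≤ p.totalDegree := by
  rw [aeval_def, eval₂_eq]
  refine (totalDegree_finsetSum _ _).trans (Finset.sup_le fun m hm => ?_)
  refine (totalDegree_mul _ _).trans ?_
  rw [algebraMap_eq, totalDegree_C, zero_add]
  refine (totalDegree_finsetProd _ _).trans ?_
  refine le_trans (Finset.sum_le_sum fun i _ => ?_) (le_totalDegree hm)
  refine (totalDegree_pow _ _).trans ?_
  calc m i * (f i).totalDegree ≤ m i * 1 := Nat.mul_le_mul_left _ (hf i)
    _ = m i := mul_one _

section Subst

variable {k K : Type*} [Field k] [Field K] [Algebra k K]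

/-- substitute constants from `K` for the variables in the second block -/
noncomputable def thetaHom {σ : Type*} {m : ℕ} (c : Fin m → K) :
    MvPolynomial (σ ⊕ Fin m) k →ₐ[k] MvPolynomial σ K :=
  aeval (Sum.elim X (fun i => C (c i)))

/-- the map of rational function fields -/
noncomputable def ratMap (k K : Type*) [Field k] [Field K] [Algebra k K] :
    RatFunc k →+* RatFunc K :=
  RatFunc.mapRingHom (Polynomial.mapRingHom (algebraMap k K))
    (nonZeroDivisors_le_comap_nonZeroDivisors_of_injective _
      (Polynomial.map_injective _ (algebraMap k K).injective))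

theorem ratMap_algebraMap (p : Polynomial k) :
    ratMap k K (algebraMap _ _ p) = algebraMap _ _ (p.map (algebraMap k K)) := by
  have h := RatFunc.map_apply_div_ne_zero (Polynomial.mapRingHom (algebraMap k K))
    (nonZeroDivisors_le_comap_nonZeroDivisors_of_injective _
      (Polynomial.map_injective _ (algebraMap k K).injective)) p 1 one_ne_zero
  simp only [map_one, div_one] at h
  exact h

/-- the same over the rational function fields -/
noncomputable def ThetaHom {σ : Type*} {m : ℕ} (c : Fin m → K) :
    MvPolynomial (σ ⊕ Fin m) (RatFunc k) →+* MvPolynomial σ (RatFunc K) :=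
  eval₂Hom (C.comp (ratMap k K)) (Sum.elim X (fun i => C (RatFunc.C (c i))))

theorem border_subst {σ : Type*} {m : ℕ} (c : Fin m → K) {H : MvPolynomial (σ ⊕ Fin m) k} {r : ℕ}
    (h : BorderComplexityLE H r) : BorderComplexityLE (thetaHom c H) r := by
  obtain ⟨F, hspec, hF⟩ := h
  refine ⟨ThetaHom c F, ?_, ?_⟩
  · rw [spec_iff] at hspec ⊢
    obtain ⟨P, Q, hQ, h1, h2⟩ := hspec
    let Θ : MvPolynomial (σ ⊕ Fin m) (Polynomial k) →+* MvPolynomial σ (Polynomial K) :=
      eval₂Hom (C.comp (Polynomial.mapRingHom (algebraMap k K)))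
        (Sum.elim X (fun i => C (Polynomial.C (c i))))
    have e1 : (map (algebraMap (Polynomial K) (RatFunc K))).comp Θ =
        (ThetaHom c).comp (map (algebraMap (Polynomial k) (RatFunc k))) := by
      apply MvPolynomial.ringHom_ext
      · intro a
        simp [Θ, ThetaHom, ratMap_algebraMap]
      · rintro (x | i)
        · simp [Θ, ThetaHom]
        · simp [Θ, ThetaHom]
    have e2 : (map (Polynomial.evalRingHom 0)).comp Θ =
        ((thetaHom (k := k) c : MvPolynomial (σ ⊕ Fin m) k →ₐ[k] MvPolynomial σ K) :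
          MvPolynomial (σ ⊕ Fin m) k →+* MvPolynomial σ K).comp
          (map (Polynomial.evalRingHom 0)) := by
      apply MvPolynomial.ringHom_ext
      · intro a
        simp [Θ, thetaHom, Polynomial.eval_map, Polynomial.eval₂_at_zero,
          Polynomial.coeff_zero_eq_eval_zero]
      · rintro (x | i)
        · simp [Θ, thetaHom]
        · simp [Θ, thetaHom]
    refine ⟨Θ P, Q.map (algebraMap k K), ?_, ?_, ?_⟩
    · rw [Polynomial.eval_map, Polynomial.eval₂_at_zero, ← Polynomial.coeff_zero_eq_eval_zero] at *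
      rw [Ne, map_eq_zero]
      exact hQ
    · have := DFunLike.congr_fun e1 P
      rw [RingHom.comp_apply, RingHom.comp_apply, h1, map_mul] at this
      rw [this]
      congr 1
      simp [ThetaHom, ratMap_algebraMap]
    · have := DFunLike.congr_fun e2 P
      rw [RingHom.comp_apply, RingHom.comp_apply, h2, map_mul] at this
      rw [this]
      congr 1
      simp [thetaHom, Polynomial.eval_map, Polynomial.eval₂_at_zero,
        Polynomial.coeff_zero_eq_eval_zero]
  · refine ComputedBy.map (ThetaHom c) ?_ ?_ hF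
    · rintro _ ⟨x | i, rfl⟩
      · left
        exact ⟨x, by simp [ThetaHom]⟩
      · right; left
        exact ⟨RatFunc.C (c i), by simp [ThetaHom]⟩
    · intro a
      right; left
      exact ⟨_, by simp only [ThetaHom, algebraMap_eq, eval₂Hom_C, RingHom.comp_apply]; rfl⟩

end Subst

section Upward

variable {k K : Type*} [Field k] [Field K] [Algebra k K]

/-- rename and specialize the generic constants -/
noncomputable def phiHom (k : Type*) {K : Type*} [Field k] [Field K] {σ : Type} {u : ℕ}
    (T : Finset K) : MvPolynomial ((σ ⊕ Fin u) ⊕ K) k →ₐ[k]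
      MvPolynomial ((σ ⊕ Fin T.card) ⊕ Fin u) k :=
  letI := Classical.decEq K
  aeval (Sum.elim
    (Sum.elim (fun x => X (Sum.inl (Sum.inl x))) (fun i => X (Sum.inr i)))
    (fun a => if h : a ∈ T then X (Sum.inl (Sum.inr (T.equivFin ⟨a, h⟩))) else 0))

theorem phiHom_degree {σ : Type} {u : ℕ} (T : Finset K) (p : MvPolynomial ((σ ⊕ Fin u) ⊕ K) k) :
    (phiHom k T p).totalDegree ≤ p.totalDegree := by
  apply totalDegree_aeval_le
  rintro ((x | i) | a)
  · simp
  · simp
  · simp only [Sum.elim_inr]
    split_ifs <;> simp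

theorem substBits_degree {σ : Type} {u : ℕ} (g : MvPolynomial (σ ⊕ Fin u) k) (e : Fin u → Bool) :
    (substBits g e).totalDegree ≤ g.totalDegree := by
  apply totalDegree_aeval_le
  rintro (x | i)
  · simp
  · simp only [Sum.elim_inr]
    split_ifs <;> simp

theorem compat {σ : Type} {u : ℕ} (T : Finset K) (e : Fin u → Bool) {r : ℕ}
    {G : MvPolynomial ((σ ⊕ Fin u) ⊕ K) k}
    (hG : ComputedBy k (inp k (σ ⊕ Fin u) (T : Set K)) r G) :
    thetaHom (fun i => ((T.equivFin.symm i : T) : K)) (substBits (phiHom k T G) e) =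
      substBits (ev k (σ ⊕ Fin u) G) e := by
  obtain ⟨l, hl, -, hav⟩ := hG
  let φ : MvPolynomial ((σ ⊕ Fin u) ⊕ K) k →+* MvPolynomial σ K :=
    ((thetaHom (fun i => ((T.equivFin.symm i : T) : K)) :
      MvPolynomial (σ ⊕ Fin T.card) k →ₐ[k] MvPolynomial σ K) :
        MvPolynomial (σ ⊕ Fin T.card) k →+* MvPolynomial σ K).comp
      (((aeval (Sum.elim X (fun i => if e i then 1 else 0)) :
        MvPolynomial ((σ ⊕ Fin T.card) ⊕ Fin u) k →ₐ[k] MvPolynomial (σ ⊕ Fin T.card) k) :
        MvPolynomial ((σ ⊕ Fin T.card) ⊕ Fin u) k →+* MvPolynomial (σ ⊕ Fin T.card) k).comp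
      ((phiHom k T : MvPolynomial ((σ ⊕ Fin u) ⊕ K) k →ₐ[k]
        MvPolynomial ((σ ⊕ Fin T.card) ⊕ Fin u) k) :
        MvPolynomial ((σ ⊕ Fin u) ⊕ K) k →+* MvPolynomial ((σ ⊕ Fin T.card) ⊕ Fin u) k))
  let ψ : MvPolynomial ((σ ⊕ Fin u) ⊕ K) k →+* MvPolynomial σ K :=
    ((aeval (Sum.elim X (fun i => if e i then 1 else 0)) :
      MvPolynomial (σ ⊕ Fin u) K →ₐ[K] MvPolynomial σ K) :
        MvPolynomial (σ ⊕ Fin u) K →+* MvPolynomial σ K).comp
      ((ev k (σ ⊕ Fin u) : MvPolynomial ((σ ⊕ Fin u) ⊕ K) k →ₐ[k] MvPolynomial (σ ⊕ Fin u) K) :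
        MvPolynomial ((σ ⊕ Fin u) ⊕ K) k →+* MvPolynomial (σ ⊕ Fin u) K)
  refine hl.hom_eq φ ψ ?_ ?_ G hav
  · rintro _ (⟨x | i, rfl⟩ | ⟨a, ha, rfl⟩)
    · simp [φ, ψ, phiHom, thetaHom, ev]
    · simp only [φ, ψ, phiHom, thetaHom, ev, RingHom.comp_apply, RingHom.coe_coe, aeval_X,
        Sum.elim_inl, Sum.elim_inr]
      split_ifs <;> simp
    · have ha' : a ∈ T := ha
      simp [φ, ψ, phiHom, thetaHom, ev, ha']
  · intro c
    simp only [φ, ψ, phiHom, thetaHom, ev, RingHom.comp_apply, RingHom.coe_coe, AlgHom.commutes]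
    simp

/-- If `VNP ⊆ approximative VP` over `k` then the same holds over every extension field. -/
theorem upward (h : VNPSubsetBorderVP k) : VNPSubsetBorderVP K := by
  intro σ _ f hf
  obtain ⟨⟨hcard, hdeg⟩, u, hu, g, ⟨⟨hgcard, hgdeg⟩, r, hr, hcomp⟩, hsum⟩ := hf
  have hgen := fun n => generic_computedBy (k := k) (g n).totalDegree (r n) le_rfl (hcomp n)
  choose T G hT hG hev hGdeg using hgen
  -- the generic family
  let H : ∀ n, MvPolynomial (σ n ⊕ Fin (T n).card) k := fun n =>
    ∑ e : Fin (u n) → Bool, substBits (phiHom k (T n) (G n)) e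
  have hTb : PBounded (fun n => (T n).card) :=
    PBounded.mono hT ((PBounded.const 3).mul (hr.add (PBounded.const 1)))
  have hGb : PBounded (fun n => (G n).totalDegree) :=
    PBounded.mono hGdeg ((hgdeg.add (PBounded.const 1)).mul (hr.add (PBounded.const 1)))
  have hφdeg : PBounded (fun n => (phiHom k (T n) (G n)).totalDegree) :=
    PBounded.mono (fun n => phiHom_degree (T n) (G n)) hGb
  have hHfam : IsPFamily H := by
    constructor
    · have : (fun n => Fintype.card (σ n ⊕ Fin (T n).card)) =
          fun n => Fintype.card (σ n) + (T n).card := by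
        funext n
        simp
      rw [this]
      exact hcard.add hTb
    · refine PBounded.mono (fun n => ?_) hφdeg
      refine (totalDegree_finsetSum _ _).trans (Finset.sup_le fun e _ => ?_)
      exact substBits_degree _ _
  have hVNP : InVNP H := by
    refine ⟨hHfam, u, hu, fun n => phiHom k (T n) (G n), ⟨⟨?_, hφdeg⟩, ?_⟩, fun n => rfl⟩
    · have : (fun n => Fintype.card ((σ n ⊕ Fin (T n).card) ⊕ Fin (u n))) =
          fun n => Fintype.card (σ n) + (T n).card + u n := by
        funext n
        simp
      rw [this]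
      exact (hcard.add hTb).add hu
    · refine ⟨_, ((hr.mul (hgdeg.mul ((PBounded.const 2).mul
        (hgdeg.add (PBounded.const 1))))).add (hgdeg.add (PBounded.const 1))), fun n => ?_⟩
      refine ComputedBy.map ((phiHom k (T n) : MvPolynomial ((σ n ⊕ Fin (u n)) ⊕ K) k →ₐ[k]
        MvPolynomial ((σ n ⊕ Fin (T n).card) ⊕ Fin (u n)) k) :
        MvPolynomial ((σ n ⊕ Fin (u n)) ⊕ K) k →+*
        MvPolynomial ((σ n ⊕ Fin (T n).card) ⊕ Fin (u n)) k) ?_ ?_ (hG n)
      · rintro _ (⟨x | i, rfl⟩ | ⟨a, ha, rfl⟩)
        · left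
          exact ⟨Sum.inl (Sum.inl x), by simp [phiHom]⟩
        · left
          exact ⟨Sum.inr i, by simp [phiHom]⟩
        · left
          have ha' : a ∈ T n := ha
          exact ⟨Sum.inl (Sum.inr ((T n).equivFin ⟨a, ha'⟩)), by simp [phiHom, ha']⟩
      · intro c
        right; left
        exact ⟨c, by rw [RingHom.coe_coe, AlgHom.commutes]⟩
  obtain ⟨-, r', hr', hborder⟩ := h _ H hVNP
  refine ⟨⟨hcard, hdeg⟩, r', hr', fun n => ?_⟩
  have h1 := border_subst (fun i => (((T n).equivFin.symm i : T n) : K)) (hborder n)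
  have h2 : thetaHom (fun i => (((T n).equivFin.symm i : T n) : K)) (H n) = f n := by
    rw [hsum n]
    simp only [H, map_sum]
    refine Finset.sum_congr rfl fun e _ => ?_
    rw [compat (T n) e (hG n), hev n]
  rw [h2] at h1
  exact h1

end Upward

end Pool.Agent.H53.AC
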